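import Mathlib
import Pool.Agent.Lib.MP_3550b5_nt.SCount

/-!
Weighted boxes.
-/

namespace Pool.Agent.Lib.MP_3550b5_nt.B

open Finset MvPolynomial

/-- The weighted box: the integral vectors `z` with `|z i| ≤ N ^ wt i`. -/
noncomputable def wbox {n : ℕ} (wt : Fin n → ℕ) (N : ℕ) : Finset (Fin n → ℤ) :=
  Fintype.piFinset fun i => Finset.Icc (-((N ^ wt i : ℕ) : ℤ)) ((N ^ wt i : ℕ) : ℤ)

variable {n : ℕ} {wt : Fin n → ℕ}

lemma mem_wbox {N : ℕ} {z : Fin n → ℤ} :
    z ∈ wbox wt N ↔ ∀ i, |z i| ≤ ((N ^ wt i : ℕ) : ℤ) := by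
  simp [wbox, Fintype.mem_piFinset, abs_le]

/-- PROOF. `Fintype.card_piFinset`, `Int.card_Icc`: each factor is `2 N ^ wt i + 1 ≤ 3 N ^ wt i`;
`Finset.prod_le_prod`, `Finset.prod_mul_distrib`, `Finset.prod_pow_eq_pow_sum`. -/
lemma card_wbox_le {N : ℕ} (hN : 1 ≤ N) : (wbox wt N).card ≤ 3 ^ n * N ^ (∑ i, wt i) := by
  have h : ∀ i, (Finset.Icc (-((N ^ wt i : ℕ) : ℤ)) ((N ^ wt i : ℕ) : ℤ)).card ≤
      3 * N ^ wt i := by
    intro i
    rw [card_Icc_box]
    have := Nat.one_le_pow (wt i) N hN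
    omega
  calc (wbox wt N).card
      = ∏ i, (Finset.Icc (-((N ^ wt i : ℕ) : ℤ)) ((N ^ wt i : ℕ) : ℤ)).card := by
        rw [wbox, Fintype.card_piFinset]
    _ ≤ ∏ i, (3 * N ^ wt i) :=
        Finset.prod_le_prod (fun i _ => Nat.zero_le _) (fun i _ => h i)
    _ = 3 ^ n * N ^ (∑ i, wt i) := by
        rw [Finset.prod_mul_distrib, Finset.prod_const, Finset.card_univ, Fintype.card_fin,
          Finset.prod_pow_eq_pow_sum]

/-- Zeros of a nonzero polynomial in the weighted box, with a constant which depends only on the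
degrees. PROOF. `MvPolynomial.schwartz_zippel_sum_degreeOf` with `S i = Icc (-(N^wt i)) (N^wt i)`
(compare `card_zeros_le` in `SCount.lean`): `card / ∏ i, #(S i) ≤ ∑ i, degreeOf i F / #(S i)` in
`ℚ≥0`, and `#(S i) = 2 N ^ wt i + 1 ≥ N` as `wt i ≥ 1`; so
`card * N ≤ (∑ i, degreeOf i F) * ∏ i, #(S i)` and `∏ i, #(S i) ≤ 3 ^ n * N ^ (∑ i, wt i)`. -/
lemma card_zeros_w (hwt : ∀ i, 1 ≤ wt i) {F : MvPolynomial (Fin n) ℤ} (hF : F ≠ 0) {N : ℕ}
    (hN : 1 ≤ N) : ((wbox wt N).filter (fun z => eval z F = 0)).card * N ≤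
      3 ^ n * (∑ i, F.degreeOf i) * N ^ (∑ i, wt i) := by
  have hsz := MvPolynomial.schwartz_zippel_sum_degreeOf hF
    (fun i => Finset.Icc (-((N ^ wt i : ℕ) : ℤ)) ((N ^ wt i : ℕ) : ℤ))
  have hN0 : (0 : ℚ≥0) < (N : ℚ≥0) := by exact_mod_cast hN
  have hcard : ∀ i, N ≤ (Finset.Icc (-((N ^ wt i : ℕ) : ℤ)) ((N ^ wt i : ℕ) : ℤ)).card := by
    intro i
    rw [card_Icc_box]
    have h1 : N ≤ N ^ wt i := Nat.le_self_pow (by have := hwt i; omega) N
    omega
  have hP : (0 : ℚ≥0) <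
      ∏ i, ((Finset.Icc (-((N ^ wt i : ℕ) : ℤ)) ((N ^ wt i : ℕ) : ℤ)).card : ℚ≥0) := by
    apply Finset.prod_pos
    intro i _
    have h1 := hcard i
    have h2 : 0 < (Finset.Icc (-((N ^ wt i : ℕ) : ℤ)) ((N ^ wt i : ℕ) : ℤ)).card := by omega
    exact_mod_cast h2
  have h1 : (∑ i, ((F.degreeOf i : ℚ≥0) /
      ((Finset.Icc (-((N ^ wt i : ℕ) : ℤ)) ((N ^ wt i : ℕ) : ℤ)).card : ℚ≥0))) ≤
      (∑ i, (F.degreeOf i : ℚ≥0)) / (N : ℚ≥0) := by
    rw [Finset.sum_div]
    apply Finset.sum_le_sum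
    intro i _
    have h2 : (N : ℚ≥0) ≤
        ((Finset.Icc (-((N ^ wt i : ℕ) : ℤ)) ((N ^ wt i : ℕ) : ℤ)).card : ℚ≥0) := by
      exact_mod_cast hcard i
    exact div_le_div_of_nonneg_left (by positivity) hN0 h2
  have h2 := hsz.trans h1
  rw [div_le_div_iff₀ hP hN0] at h2
  have h3 : ((wbox wt N).filter (fun z => eval z F = 0)).card * N ≤
      (∑ i, F.degreeOf i) * (wbox wt N).card := by
    have h4 : (wbox wt N).card =
        ∏ i, (Finset.Icc (-((N ^ wt i : ℕ) : ℤ)) ((N ^ wt i : ℕ) : ℤ)).card := by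
      rw [wbox, Fintype.card_piFinset]
    rw [h4]
    exact_mod_cast h2
  calc ((wbox wt N).filter (fun z => eval z F = 0)).card * N
      ≤ (∑ i, F.degreeOf i) * (wbox wt N).card := h3
    _ ≤ (∑ i, F.degreeOf i) * (3 ^ n * N ^ (∑ i, wt i)) :=
        Nat.mul_le_mul_left _ (card_wbox_le hN)
    _ = 3 ^ n * (∑ i, F.degreeOf i) * N ^ (∑ i, wt i) := by ring

/-- Polynomial growth on the weighted boxes. PROOF. `exists_growth` (in `SCount.lean`) at
`N ^ (∑ i, wt i)` instead of `N`: `|z i| ≤ N ^ wt i ≤ N ^ (∑ i, wt i)`. -/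
lemma exists_growth_w (wt : Fin n → ℕ) (F : MvPolynomial (Fin n) ℤ) :
    ∃ C e : ℕ, ∀ N : ℕ, 1 ≤ N → ∀ z ∈ wbox wt N, |eval z F| ≤ C * (N : ℤ) ^ e := by
  obtain ⟨C, e, h⟩ := exists_growth F
  refine ⟨C, (∑ i, wt i) * e, fun N hN z hz => ?_⟩
  rw [mem_wbox] at hz
  have h1 := h (N ^ ∑ i, wt i) (Nat.one_le_pow _ _ hN) z (by
    intro i
    refine (hz i).trans ?_
    have h2 : N ^ wt i ≤ N ^ ∑ i, wt i :=
      Nat.pow_le_pow_right hN (Finset.single_le_sum (f := wt) (fun _ _ => Nat.zero_le _)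
        (Finset.mem_univ i))
    exact_mod_cast h2)
  rw [pow_mul]
  push_cast at h1
  exact h1

/-- The tail of a point of the box. -/
lemma tail_mem_wbox {wt : Fin (n + 1) → ℕ} {N : ℕ} {z : Fin (n + 1) → ℤ} (hz : z ∈ wbox wt N) :
    Fin.tail z ∈ wbox (fun i => wt i.succ) N := by
  rw [mem_wbox] at hz ⊢
  exact fun i => hz i.succ

/-- Counting by the tail: if every fibre over `s` has at most `k s` first coordinates, ... PROOF.
`S.card = ∑ s ∈ T, (S.filter (tail = s)).card` (`Finset.card_eq_sum_card_fiberwise`), and on a fibre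
`z ↦ z 0` is injective (see `hfib` in `UDvd.lean`). -/
lemma card_le_sum_tail {S : Finset (Fin (n + 1) → ℤ)} {T : Finset (Fin n → ℤ)}
    (k : (Fin n → ℤ) → ℕ) (hT : ∀ z ∈ S, Fin.tail z ∈ T)
    (hk : ∀ s ∈ T, ((S.filter (fun z => Fin.tail z = s)).image (fun z => z 0)).card ≤ k s) :
    S.card ≤ ∑ s ∈ T, k s := by
  rw [Finset.card_eq_sum_card_fiberwise (f := Fin.tail) (t := T) (fun z hz => hT z hz)]
  apply Finset.sum_le_sum
  intro s hs
  refine le_trans (le_of_eq ?_) (hk s hs)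
  symm
  apply Finset.card_image_of_injOn
  intro z hz z' hz' h0
  have e1 := (Finset.mem_filter.mp (Finset.mem_coe.mp hz)).2
  have e2 := (Finset.mem_filter.mp (Finset.mem_coe.mp hz')).2
  rw [← Fin.cons_self_tail z, ← Fin.cons_self_tail z', e1, e2]
  simp only at h0
  rw [h0]

/-- The values of an integral polynomial which is not zero modulo the prime `l` are rarely divisible
by `l`. PROOF. The image `Q'` of `Q` in `(ZMod l)[X]` is not zero, of degree `≤ D`, so it has at most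
`D` roots (`Polynomial.card_roots'`), and the image of `S` in `ZMod l` consists of roots of `Q'`
(`ZMod.intCast_zmod_eq_zero_iff_dvd`). Each
residue class contains at most `2 T / l + 1` elements of `S` (`card_residue_le`);
`Finset.card_le_mul_card_image`. -/
lemma card_root_classes {l : ℕ} (hl : l.Prime) {T D : ℕ} (Q : Polynomial ℤ)
    (hQ : ∃ i, ¬ (l : ℤ) ∣ Q.coeff i) (hD : Q.natDegree ≤ D) (S : Finset ℤ)
    (hS : ∀ x ∈ S, |x| ≤ T ∧ (l : ℤ) ∣ Q.eval x) : S.card ≤ D * (2 * T / l + 1) := by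
  classical
  have : Fact l.Prime := ⟨hl⟩
  obtain ⟨i, hi⟩ := hQ
  have hQ0 : Q.map (Int.castRingHom (ZMod l)) ≠ 0 := by
    intro h0
    apply hi
    have h1 : (Q.map (Int.castRingHom (ZMod l))).coeff i = 0 := by rw [h0]; simp
    rw [Polynomial.coeff_map, eq_intCast] at h1
    exact (ZMod.intCast_zmod_eq_zero_iff_dvd _ _).mp h1
  have himg : (S.image (fun x : ℤ => (x : ZMod l))).card ≤ D := by
    have h1 : S.image (fun x : ℤ => (x : ZMod l)) ⊆
        (Q.map (Int.castRingHom (ZMod l))).roots.toFinset := by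
      intro y hy
      obtain ⟨x, hx, rfl⟩ := Finset.mem_image.mp hy
      rw [Multiset.mem_toFinset, Polynomial.mem_roots hQ0, Polynomial.IsRoot.def,
        Polynomial.eval_intCast_map, eq_intCast]
      exact (ZMod.intCast_zmod_eq_zero_iff_dvd _ _).mpr (hS x hx).2
    calc (S.image (fun x : ℤ => (x : ZMod l))).card
        ≤ (Q.map (Int.castRingHom (ZMod l))).roots.toFinset.card := Finset.card_le_card h1
      _ ≤ Multiset.card (Q.map (Int.castRingHom (ZMod l))).roots :=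
          Multiset.toFinset_card_le _
      _ ≤ (Q.map (Int.castRingHom (ZMod l))).natDegree := Polynomial.card_roots' _
      _ ≤ Q.natDegree := Polynomial.natDegree_map_le
      _ ≤ D := hD
  have h2 : S.card ≤ (2 * T / l + 1) * (S.image (fun x : ℤ => (x : ZMod l))).card := by
    apply Finset.card_le_mul_card_image
    intro b _
    apply card_residue_le hl.pos
    · intro x hx
      exact (hS x (Finset.mem_filter.mp hx).1).1
    · intro x hx y hy
      have e1 := (Finset.mem_filter.mp hx).2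
      have e2 := (Finset.mem_filter.mp hy).2
      exact (ZMod.intCast_eq_intCast_iff x y l).mp (e1.trans e2.symm)
  calc S.card ≤ (2 * T / l + 1) * (S.image (fun x : ℤ => (x : ZMod l))).card := h2
    _ ≤ (2 * T / l + 1) * D := Nat.mul_le_mul_left _ himg
    _ = D * (2 * T / l + 1) := Nat.mul_comm _ _

end Pool.Agent.Lib.MP_3550b5_nt.B
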