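import Mathlib
import Pool.Agent.Lib.MP_3550b5_nt.Defs

/-!
Definitions for weighted families of elliptic curves over affine space.
-/

namespace Pool.Agent.Lib.MP_3550b5_nt

/-- The generic member of the family: the elliptic curve `y^2 = x^3 + a x + b` over the field of
rational functions in the parameters `z 0, ..., z (n-1)`. -/
noncomputable def familyCurve {n : ℕ} (a b : MvPolynomial (Fin n) ℤ) :
    WeierstrassCurve.Affine (FractionRing (MvPolynomial (Fin n) ℤ)) :=
  ⟨0, 0, 0, algebraMap _ _ a, algebraMap _ _ b⟩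

/-- The point `P` of the generic member is `(X / W^2, Y / W^3)`, where `X`, `Y`, `W` are weighted
homogeneous of degree `2 (d + w)`, `3 (d + w)`, `w`, and `W` is not zero. -/
structure IsMarkedPoint {n : ℕ} (wt : Fin n → ℕ) (d : ℕ) (a b : MvPolynomial (Fin n) ℤ) (w : ℕ)
    (X Y W : MvPolynomial (Fin n) ℤ) (P : (familyCurve a b).Point) : Prop where
  homX : X.IsWeightedHomogeneous wt (2 * (d + w))
  homY : Y.IsWeightedHomogeneous wt (3 * (d + w))
  homW : W.IsWeightedHomogeneous wt w
  W_ne : W ≠ 0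
  point : ∃ h : (familyCurve a b).Nonsingular
    (algebraMap _ (FractionRing (MvPolynomial (Fin n) ℤ)) X /
      algebraMap _ (FractionRing (MvPolynomial (Fin n) ℤ)) W ^ 2)
    (algebraMap _ (FractionRing (MvPolynomial (Fin n) ℤ)) Y /
      algebraMap _ (FractionRing (MvPolynomial (Fin n) ℤ)) W ^ 3), P = .some _ _ h

/-- `Q` is the value at the integral parameter vector `z` of the point `(X / W^2, Y / W^3)`. -/
def IsValueAt {n : ℕ} (a b X Y W : MvPolynomial (Fin n) ℤ) (z : Fin n → ℤ)
    (Q : (curve (MvPolynomial.eval z a) (MvPolynomial.eval z b)).Point) : Prop :=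
  MvPolynomial.eval z W ≠ 0 ∧
    ∃ h : (curve (MvPolynomial.eval z a) (MvPolynomial.eval z b)).Nonsingular
      ((MvPolynomial.eval z X : ℚ) / (MvPolynomial.eval z W : ℚ) ^ 2)
      ((MvPolynomial.eval z Y : ℚ) / (MvPolynomial.eval z W : ℚ) ^ 3), Q = .some _ _ h

/-- The member `E_z : y^2 = x^3 + a(z) x + b(z)` has good ordinary reduction at `p` and, for its
canonical `p`-adic height pairing `B`, either the `p`-adic regulator of the values at `z` of the
points `(X i / (W i)^2, Y i / (W i)^3)` is at distance at most `p ^ (-K)` from `v`, or `v = 0`,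
`E_z` has rank `r` and its `p`-adic regulator has absolute value at most `p ^ (-K)`. -/
def MemberNear (p : ℕ) [Fact p.Prime] {r : ℕ} (v : ℚ_[p]) (K : ℕ) {n : ℕ}
    (a b : MvPolynomial (Fin n) ℤ) (X Y W : Fin r → MvPolynomial (Fin n) ℤ) (z : Fin n → ℤ) :
    Prop :=
  GoodOrdinary p (MvPolynomial.eval z a) (MvPolynomial.eval z b) ∧
  ∃ (B : (curve (MvPolynomial.eval z a) (MvPolynomial.eval z b)).Point →
      (curve (MvPolynomial.eval z a) (MvPolynomial.eval z b)).Point → ℚ_[p])
    (Q : Fin r → (curve (MvPolynomial.eval z a) (MvPolynomial.eval z b)).Point),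
    IsCanonicalHeight p (MvPolynomial.eval z a) (MvPolynomial.eval z b) B ∧
    (((∀ i, IsValueAt a b (X i) (Y i) (W i) z (Q i)) ∧
        ‖regulator B Q - v‖ ≤ (p : ℝ) ^ (-(K : ℤ))) ∨
      (v = 0 ∧ IsMWBasis Q ∧ ‖regulator B Q‖ ≤ (p : ℝ) ^ (-(K : ℤ))))

end Pool.Agent.Lib.MP_3550b5_nt
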