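import Mathlib
import Pool.Agent.Lib.MP_3550b5_nt.SFinal2
import Pool.Agent.Lib.MP_3550b5_nt.B.DefsB

/-!
The cases for a member of the family.
-/

namespace Pool.Agent.Lib.MP_3550b5_nt.B

open MvPolynomial

variable {n : ℕ}

/-- A member whose marked points have infinite order and whose regulator is near `v`. -/
def GoodInfN (p : ℕ) [Fact p.Prime] {r : ℕ} (v : ℚ_[p]) (K : ℕ) (a b : MvPolynomial (Fin n) ℤ)
    (X Y W : Fin r → Fin r → MvPolynomial (Fin n) ℤ) (z : Fin n → ℤ) : Prop :=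
  GoodOrdinary p (eval z a) (eval z b) ∧
  ∃ (P : Fin r → (curve (eval z a) (eval z b)).Point)
    (B : (curve (eval z a) (eval z b)).Point → (curve (eval z a) (eval z b)).Point → ℚ_[p]),
    IsCanonicalHeight p (eval z a) (eval z b) B ∧
    ‖regulator B P - v‖ ≤ (p : ℝ) ^ (-(K : ℤ)) ∧
    ∀ i j, i ≤ j → IsRep (eval z a) (eval z b) (eval z (X i j)) (eval z (Y i j))
      (eval z (W i j)) (if i = j then P i else P i - P j) ∧
      ¬ IsOfFinAddOrder (if i = j then P i else P i - P j)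

lemma GoodInfN.mono {p : ℕ} [hp : Fact p.Prime] {r : ℕ} {v : ℚ_[p]} {K K' : ℕ}
    {a b : MvPolynomial (Fin n) ℤ} {X Y W : Fin r → Fin r → MvPolynomial (Fin n) ℤ}
    {z : Fin n → ℤ} (hK : K' ≤ K) (h : GoodInfN p v K a b X Y W z) :
    GoodInfN p v K' a b X Y W z := by
  obtain ⟨h1, P, B, h2, h3, h4⟩ := h
  refine ⟨h1, P, B, h2, h3.trans ?_, h4⟩
  have hp1 : (1 : ℝ) ≤ p := by exact_mod_cast hp.out.one_lt.le
  exact zpow_le_zpow_right₀ hp1 (by omega)

variable {p : ℕ} [hp : Fact p.Prime]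

/-- The cases. -/
lemma member_cases {r : ℕ} {a b : MvPolynomial (Fin n) ℤ}
    {X Y W : Fin r → Fin r → MvPolynomial (Fin n) ℤ} {z : Fin n → ℤ}
    (hEq : ∀ i j, i ≤ j → Y i j ^ 2 = X i j ^ 3 + a * X i j * W i j ^ 4 + b * W i j ^ 6)
    (hH : ∀ i j, i < j →
      ∀ (k1 : (curve (eval z a) (eval z b)).Nonsingular
          (((eval z (X i i) : ℤ) : ℚ) / ((eval z (W i i) : ℤ) : ℚ) ^ 2)
          (((eval z (Y i i) : ℤ) : ℚ) / ((eval z (W i i) : ℤ) : ℚ) ^ 3))
        (k2 : (curve (eval z a) (eval z b)).Nonsingular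
          (((eval z (X j j) : ℤ) : ℚ) / ((eval z (W j j) : ℤ) : ℚ) ^ 2)
          (((eval z (Y j j) : ℤ) : ℚ) / ((eval z (W j j) : ℤ) : ℚ) ^ 3))
        (k3 : (curve (eval z a) (eval z b)).Nonsingular
          (((eval z (X i j) : ℤ) : ℚ) / ((eval z (W i j) : ℤ) : ℚ) ^ 2)
          (((eval z (Y i j) : ℤ) : ℚ) / ((eval z (W i j) : ℤ) : ℚ) ^ 3)),
        (.some _ _ k1 : (curve (eval z a) (eval z b)).Point) - .some _ _ k2 = .some _ _ k3)
    {v : ℚ_[p]} {K : ℕ}
    (ht : MemberNear p v K a b (fun i => X i i) (fun i => Y i i) (fun i => W i i) z)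
    (hWt : ∀ i j, i ≤ j → eval z (W i j) ≠ 0) :
    (∃ i j, i ≤ j ∧ ∃ P : (curve (eval z a) (eval z b)).Point,
      IsRep (eval z a) (eval z b) (eval z (X i j)) (eval z (Y i j))
        (eval z (W i j)) P ∧ IsOfFinAddOrder P) ∨
    GoodInfN p v K a b X Y W z := by
  obtain ⟨hord, B, Q, hB, hcase⟩ := ht
  have hΔ := disc_ne_of_good hord
  have hns : ∀ i j, i ≤ j → (curve (eval z a) (eval z b)).Nonsingular
      (((eval z (X i j) : ℤ) : ℚ) / ((eval z (W i j) : ℤ) : ℚ) ^ 2)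
      (((eval z (Y i j) : ℤ) : ℚ) / ((eval z (W i j) : ℤ) : ℚ) ^ 3) := by
    intro i j hij
    apply nonsing_of_disc (hWt i j hij) _ hΔ
    have := congrArg (eval z) (hEq i j hij)
    simpa only [map_pow, map_add, map_mul] using this
  -- the points
  obtain ⟨P, hP, hreg⟩ : ∃ P : Fin r → (curve (eval z a) (eval z b)).Point,
      (∀ i, P i = .some _ _ (hns i i le_rfl)) ∧ ‖regulator B P - v‖ ≤ (p : ℝ) ^ (-(K : ℤ)) := by
    rcases hcase with ⟨hval, hreg⟩ | ⟨hv, hMW, hreg⟩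
    · refine ⟨Q, fun i => ?_, hreg⟩
      obtain ⟨-, hh, he⟩ := hval i
      exact he
    · refine ⟨fun i => .some _ _ (hns i i le_rfl), fun i => rfl, ?_⟩
      rw [hv, sub_zero]
      exact (regulator_le_of_basis hB hMW _).trans hreg
  have hrep : ∀ i j, i ≤ j → IsRep (eval z a) (eval z b) (eval z (X i j))
      (eval z (Y i j)) (eval z (W i j)) (if i = j then P i else P i - P j) := by
    intro i j hij
    refine ⟨hWt i j hij, hns i j hij, ?_⟩
    rcases eq_or_lt_of_le hij with h | h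
    · subst h
      rw [if_pos rfl]
      exact hP i
    · rw [if_neg h.ne, hP i, hP j]
      exact hH i j h _ _ _
  by_cases htor : ∃ i j, i ≤ j ∧ IsOfFinAddOrder (if i = j then P i else P i - P j)
  · obtain ⟨i, j, hij, ht⟩ := htor
    exact Or.inl ⟨i, j, hij, _, hrep i j hij, ht⟩
  · push Not at htor
    exact Or.inr ⟨hord, P, B, hB, hreg, fun i j hij => ⟨hrep i j hij, htor i j hij⟩⟩

end Pool.Agent.Lib.MP_3550b5_nt.B
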