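import Mathlib
import Pool.Agent.Lib.MP_3550b5_nt.UData

/-!
The data of a section at a fibre, with a divisibility for the cancelled power of `p`.
-/

namespace Pool.Agent.Lib.MP_3550b5_nt.B

open WeierstrassCurve.Affine

/-- The data of a section at a fibre, with a bound for the valuations. -/
theorem sec_data_w {p : ℕ} [hp : Fact p.Prime] (hp5 : 5 ≤ p) {a b X Y W : ℤ}
    {P : (curve a b).Point}
    (hP : IsRep a b X Y W P) (htor : ¬ IsOfFinAddOrder P)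
    (hgood : ¬ (p : ℤ) ∣ 4 * a ^ 3 + 27 * b ^ 2)
    {Bh : (curve a b).Point → (curve a b).Point → ℚ_[p]} (hB : IsCanonicalHeight p a b Bh)
    {R : ℤ} (hR : R ≠ 0) (hcommon : ∀ D : ℤ, D ∣ 2 * Y → D ∣ 3 * X ^ 2 + a * W ^ 4 → D ∣ R)
    {c : ℕ} (hc1 : 1 ≤ c) (hN : ∀ (l : ℕ) (_ : Fact l.Prime), (l : ℤ) ∣ R →
      ∃ n, 1 ≤ n ∧ n ∣ c ∧ ¬ SingAt l (n • P)) :
    ∃ s G : ℕ, s ≤ R.natAbs ∧ (p : ℤ) ^ s ∣ R ∧ 0 < G ∧ G ∣ (Dn a X Y W c).natAbs ∧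
      Dn a X Y W c ≠ 0 ∧
      (∀ l : ℕ, l.Prime → l ∣ G → l ∣ R.natAbs) ∧ ¬ (p : ℤ) ∣ (G : ℤ) ∧
      (∀ l : ℕ, l.Prime → ∀ k : ℕ, ¬ (l : ℤ) ^ k ∣ 4 * (4 * a ^ 3 + 27 * b ^ 2) →
        ¬ l ^ ((R.natAbs + k) * c ^ 2 + 1) ∣ G) ∧
      SecHt p a b X Y W c s
        (Bh P P - ulog (((G : ℕ) : ℤ) : ℤ_[p]) / (c : ℚ_[p]) ^ 2) := by
  have hpZ : Prime (p : ℤ) := Nat.prime_iff_prime_int.mp hp.out
  have hp0 : (p : ℤ) ≠ 0 := hpZ.ne_zero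
  obtain ⟨G0, A₁, B₁, D₁, hG0, hD1, rfl, rfl, rfl, hprim⟩ :=
    reduce_rep a b _ _ _ _ hP.1 le_rfl hP.eqn
  -- the part of `G0` at `p`
  obtain ⟨s, g, hg, hG0e⟩ : ∃ (s : ℕ) (g : ℤ), ¬ (p : ℤ) ∣ g ∧ G0 = p ^ s * g := by
    have hfin : FiniteMultiplicity (p : ℤ) G0 :=
      Int.finiteMultiplicity_iff.mpr ⟨by
        rw [Int.natAbs_natCast]; exact hp.out.ne_one, hG0.ne'⟩
    obtain ⟨g, hge, hgn⟩ := hfin.exists_eq_pow_mul_and_not_dvd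
    exact ⟨_, g, hgn, hge⟩
  subst hG0e
  have hps : (p : ℤ) ^ s ≠ 0 := pow_ne_zero _ hp0
  set A : ℤ := g ^ 2 * A₁ with hA
  set B : ℤ := g ^ 3 * B₁ with hBdef
  set D : ℤ := g * D₁ with hD
  have eX : ((p : ℤ) ^ s * g) ^ 2 * A₁ = ((p : ℤ) ^ s) ^ 2 * A := by rw [hA]; ring
  have eY : ((p : ℤ) ^ s * g) ^ 3 * B₁ = ((p : ℤ) ^ s) ^ 3 * B := by rw [hBdef]; ring
  have eW : (p : ℤ) ^ s * g * D₁ = (p : ℤ) ^ s * D := by rw [hD]; ring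
  rw [eX, eY, eW] at hP hcommon ⊢
  have hP' : IsRep a b A B D P := hP.descale
  have hpD : ¬ ((p : ℤ) ∣ A ∧ (p : ℤ) ∣ D) := by
    rintro ⟨h1, h2⟩
    apply hprim p hpZ
    constructor
    · rcases hpZ.dvd_or_dvd h1 with h | h
      · exact absurd (hpZ.dvd_of_dvd_pow h) hg
      · exact h
    · rcases hpZ.dvd_or_dvd h2 with h | h
      · exact absurd h hg
      · exact h
  have hup : ∀ l : ℤ, l ∣ 2 * B → l ∣ 3 * A ^ 2 + a * D ^ 4 → l ∣ R := by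
    intro l h1 h2
    apply hcommon
    · rw [show 2 * (((p : ℤ) ^ s) ^ 3 * B) = (2 * B) * ((p : ℤ) ^ s) ^ 3 by ring]
      exact Dvd.dvd.mul_right h1 _
    · rw [show 3 * (((p : ℤ) ^ s) ^ 2 * A) ^ 2 + a * ((p : ℤ) ^ s * D) ^ 4 =
        (3 * A ^ 2 + a * D ^ 4) * ((p : ℤ) ^ s) ^ 4 by ring]
      exact Dvd.dvd.mul_right h2 _
  obtain ⟨G, A₂, B₂, D₂, hG, hrep2, hcop, hDG, hGl⟩ := exists_good_multiple_c hP' htor hc1 (by
    intro l hl h1 h2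
    exact hN l hl (hup l h1 h2))
  have hsR1 : (p : ℤ) ^ s ∣ R := by
    apply hcommon
    · exact ⟨2 * (((p : ℤ) ^ s) ^ 2 * B), by ring⟩
    · exact ⟨3 * (((p : ℤ) ^ s) ^ 3 * A ^ 2) + a * (((p : ℤ) ^ s) ^ 3 * D ^ 4), by ring⟩
  have hsR : s ≤ R.natAbs := by
    have h2 := Nat.le_of_dvd (Int.natAbs_pos.mpr hR) (Int.natAbs_dvd_natAbs.mpr hsR1)
    rw [Int.natAbs_pow, Int.natAbs_natCast] at h2
    exact (Nat.lt_pow_self hp.out.one_lt).le.trans h2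
  have hpG : ¬ (p : ℤ) ∣ G := by
    intro hd
    obtain ⟨h1, h2⟩ := hGl p hp.out hd
    have hpD' : ¬ (p : ℤ) ∣ D := by
      intro h3
      apply hpD
      refine ⟨?_, h3⟩
      have h4 : (p : ℤ) ∣ 3 * A ^ 2 := by
        have e : 3 * A ^ 2 = (3 * A ^ 2 + a * D ^ 4) - D * (a * D ^ 3) := by ring
        rw [e]; exact dvd_sub h2 (Dvd.dvd.mul_right h3 _)
      rcases hpZ.dvd_or_dvd h4 with h5 | h5
      · exfalso
        have := Int.le_of_dvd (by norm_num) h5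
        omega
      · exact hpZ.dvd_of_dvd_pow h5
    have h3 := dvd_disc_of_sing hpZ hpD' hP'.eqn h1 h2
    rcases hpZ.dvd_or_dvd h3 with h4 | h4
    · have := Int.le_of_dvd (by norm_num) h4
      omega
    · exact hgood h4
  have hDnz : Dn a A B D c ≠ 0 :=
    Dn_ne (hP'.multSeq htor) hP'.1 _ hc1
  have hDe := Dn_descale hP htor c
  obtain ⟨Gn, rfl⟩ : ∃ n : ℕ, G = n := ⟨G.toNat, (Int.toNat_of_nonneg hG.le).symm⟩
  refine ⟨s, Gn, hsR, hsR1, by exact_mod_cast hG, ?_, ?_, ?_, hpG, ?_, ?_⟩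
  · rw [hDe, hDG]
    have : (Gn : ℤ) ∣ ((p : ℤ) ^ s) ^ (c ^ 2) * (Gn * D₂) :=
      ⟨((p : ℤ) ^ s) ^ (c ^ 2) * D₂, by ring⟩
    have := Int.natAbs_dvd_natAbs.mpr this
    rwa [Int.natAbs_natCast] at this
  · rw [hDe]
    exact mul_ne_zero (pow_ne_zero _ hps) hDnz
  · intro l hl hd
    obtain ⟨h1, h2⟩ := hGl l hl (by exact_mod_cast hd)
    have := Int.natAbs_dvd_natAbs.mpr (hup l h1 h2)
    rwa [Int.natAbs_natCast] at this
  · intro l hl k hk hd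
    have hlf : Fact l.Prime := ⟨hl⟩
    have hlZ : Prime (l : ℤ) := Nat.prime_iff_prime_int.mp hl
    have hg0 : g ≠ 0 := by
      rintro rfl
      exact hP'.1 (by rw [hD, zero_mul])
    have hprim2 : ¬ ((l : ℤ) ∣ A₂ ∧ (l : ℤ) ∣ D₂) := by
      rintro ⟨k1, k2⟩
      have k3 : (l : ℤ) ∣ B₂ := by
        apply hlZ.dvd_of_dvd_pow (n := 2)
        rw [hrep2.eqn]
        exact dvd_add (dvd_add (dvd_pow k1 (by norm_num))
          (Dvd.dvd.mul_left (dvd_pow k2 (by norm_num)) _))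
          (Dvd.dvd.mul_left (dvd_pow k2 (by norm_num)) _)
      exact hlZ.not_isUnit (hcop.isUnit_of_dvd' (Dvd.dvd.mul_left k3 _)
        (dvd_add (Dvd.dvd.mul_left (dvd_pow k1 (by norm_num)) _)
          (Dvd.dvd.mul_left (dvd_pow k2 (by norm_num)) _)))
    refine not_pow_dvd_G (l := l) (s := R.natAbs) hP' htor hk hc1 hrep2 hprim2 hDG hA hD
      (hprim l hlZ) ?_ (by exact_mod_cast hd)
    -- the valuation of `g`
    have hgn : ((g : ℤ) : ℚ_[l]) ≠ 0 := by exact_mod_cast hg0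
    rw [Padic.norm_eq_zpow_neg_valuation hgn, Padic.valuation_intCast]
    have h1 : (l : ℤ) ^ padicValInt l g ∣ R := by
      have h2 : (l : ℤ) ^ padicValInt l g ∣ g := padicValInt_dvd g
      apply hup
      · exact h2.trans ⟨2 * (g ^ 2 * B₁), by rw [hBdef]; ring⟩
      · exact h2.trans ⟨3 * (g ^ 3 * A₁ ^ 2) + a * (g ^ 3 * D₁ ^ 4), by rw [hA, hD]; ring⟩
    have h2 := Nat.le_of_dvd (Int.natAbs_pos.mpr hR) (Int.natAbs_dvd_natAbs.mpr h1)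
    rw [Int.natAbs_pow, Int.natAbs_natCast] at h2
    have h3 : padicValInt l g ≤ R.natAbs := (Nat.lt_pow_self hl.one_lt).le.trans h2
    apply zpow_le_zpow_right₀ (by exact_mod_cast hl.one_lt.le)
    omega
  · refine ⟨A, B, D, by rw [← pow_mul, mul_comm s 2], by rw [← pow_mul, mul_comm s 3], rfl, ?_⟩
    exact htCl_of_mult hp5 hP' htor hc1 hrep2 hcop hDG hpG hB

end Pool.Agent.Lib.MP_3550b5_nt.B
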