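import Mathlib
import Pool.Agent.Lib.MP_3550b5_nt.UCount
import Pool.Agent.Lib.MP_3550b5_nt.B.Class
import Pool.Agent.Lib.MP_3550b5_nt.B.Data
import Pool.Agent.Lib.MP_3550b5_nt.B.Cases

/-!
Count of the members with regulator near `v`.
-/

namespace Pool.Agent.Lib.MP_3550b5_nt.B

open MvPolynomial

/-- Count of the members with regulator near `v`, with a constant uniform in `p`, where the common
divisors divide a fixed integer `R` and the discriminant is not divisible by `l ^ h`, `l ∣ R`. -/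
theorem good_count_n {n : ℕ} {wt : Fin n → ℕ} (hwt : ∀ i, 1 ≤ wt i) {r : ℕ} (hr : 1 ≤ r) {d : ℕ}
    {a b : MvPolynomial (Fin n) ℤ} (ha : a.IsWeightedHomogeneous wt (4 * d))
    (hb : b.IsWeightedHomogeneous wt (6 * d)) {w : Fin r → Fin r → ℕ}
    {X Y W : Fin r → Fin r → MvPolynomial (Fin n) ℤ}
    (hX : ∀ i j, i ≤ j → (X i j).IsWeightedHomogeneous wt (2 * (d + w i j)))
    (hY : ∀ i j, i ≤ j → (Y i j).IsWeightedHomogeneous wt (3 * (d + w i j)))
    (hW : ∀ i j, i ≤ j → (W i j).IsWeightedHomogeneous wt (w i j))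
    (hdet : (heightMatrix d w).det ≠ 0) {R : ℤ} (hR : R ≠ 0) (h : ℕ) :
    ∃ C : ℕ, ∀ (p : ℕ) (_ : Fact p.Prime), 5 ≤ p → ∀ (v : ℚ_[p]) (K N m : ℕ), 1 ≤ m →
      m ≤ N → m ≤ p ^ K → ∀ E : Finset (Fin n → ℤ), (∀ z ∈ E, z ∈ wbox wt N ∧
      GoodInfN p v K a b X Y W z ∧
      (∀ i j, i ≤ j → ∀ D : ℤ, D ∣ 2 * eval z (Y i j) →
        D ∣ 3 * eval z (X i j) ^ 2 + eval z a * eval z (W i j) ^ 4 → D ∣ R) ∧
      (∀ l : ℕ, l.Prime → (l : ℤ) ∣ R →
        ¬ (l : ℤ) ^ h ∣ 4 * (4 * eval z a ^ 3 + 27 * eval z b ^ 2))) →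
      E.card ^ r * m ≤ C * (N ^ (∑ i, wt i)) ^ r * p ^ (2 * r + 2) := by
  classical
  set ρ := R.natAbs with hρ
  have hRn : ρ ≠ 0 := Int.natAbs_ne_zero.mpr hR
  set s := ρ.primeFactors.card with hs
  set Δ₀ := (heightMatrix d w).det.natAbs with hΔ₀
  set M' : ℕ := (2 * (ρ + 1) ^ (2 * h)) ^ (s * r * r) with hM'
  have hM'1 : 1 ≤ M' := by
    rw [hM']
    have : 1 ≤ (ρ + 1) ^ (2 * h) := Nat.one_le_pow _ _ (by omega)
    exact Nat.one_le_pow _ _ (by omega)
  set μ : ℕ := (ρ + h) * M' ^ 2 with hμ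
  set T : Finset ℕ := (Finset.Icc 1 (ρ ^ (μ + 1))).filter
    (fun g => (∀ l : ℕ, l.Prime → l ∣ g → l ∈ ρ.primeFactors) ∧
      ∀ l : ℕ, l.Prime → ¬ l ^ (μ + 1) ∣ g) with hT
  refine ⟨(M' * ((ρ + 1) * T.card) ^ (r * r)) ^ r * ((3 ^ n * r) ^ r * (Δ₀ * ρ ^ (3 * ρ) *
    M' ^ (2 * r))), fun p hp hp5 v K N m hm1 hmN hmK E hE => ?_⟩
  have hp1 : 1 < p := hp.out.one_lt
  have hρ1 : 1 ≤ ρ := Nat.one_le_iff_ne_zero.mpr hRn
  obtain ⟨S₀, hS₀, hS₀p⟩ : ∃ S₀ : ℕ, (∀ s' : ℕ, s' ≤ ρ → (p : ℤ) ^ s' ∣ R → s' ≤ S₀) ∧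
      p ^ (3 * S₀) ≤ ρ ^ (3 * ρ) := by
    by_cases hpR : (p : ℤ) ∣ R
    · refine ⟨ρ, fun s' h1 _ => h1, Nat.pow_le_pow_left ?_ _⟩
      exact Nat.le_of_dvd (Nat.pos_of_ne_zero hRn) (Int.natCast_dvd.mp hpR)
    · refine ⟨0, fun s' _ h2 => ?_, ?_⟩
      · by_contra hne
        exact hpR ((dvd_pow_self _ (by omega)).trans h2)
      · rw [mul_zero, pow_zero]
        exact Nat.one_le_pow _ _ hρ1
  have h1T : 1 ∈ T := by
    rw [hT, Finset.mem_filter, Finset.mem_Icc]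
    refine ⟨⟨le_rfl, Nat.pow_pos (Nat.pos_of_ne_zero hRn)⟩, fun l hl hd => ?_, fun l hl hd => ?_⟩
    · exact absurd (Nat.dvd_one.mp hd) hl.ne_one
    · have := Nat.le_of_dvd one_pos hd
      exact absurd this (not_le.mpr (Nat.one_lt_pow (Nat.succ_ne_zero _) hl.one_lt))
  -- data of a fibre
  have hdata : ∀ z ∈ E, ∃ q : ℕ × (Fin r → Fin r → ℕ × ℕ), (1 ≤ q.1 ∧ q.1 ≤ M') ∧
      (∀ i j, ((q.2 i j).1 ≤ ρ ∧ (q.2 i j).1 ≤ S₀) ∧
      (q.2 i j).2 ∈ T ∧ ¬ (p : ℤ) ∣ ((q.2 i j).2 : ℤ)) ∧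
      InClass p v K q.1 (fun i j => (q.2 i j).1)
        (fun i j => ulog ((((q.2 i j).2 : ℕ) : ℤ) : ℤ_[p]) / (q.1 : ℚ_[p]) ^ 2)
        (eval z a) (eval z b) (fun i j => eval z (X i j)) (fun i j => eval z (Y i j))
        (fun i j => eval z (W i j)) := by
    intro z hz
    obtain ⟨hzb, ⟨hord, P, B, hB, hreg, hrep⟩, hcommon, hK⟩ := hE z hz
    obtain ⟨c, hc1, hcM, hcn⟩ := exists_indices (fun i j => if i = j then P i else P i - P j) h
      (fun i j hij => (hrep i j hij).2) hR hK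
    have h1 : ∀ i j, ∃ sG : ℕ × ℕ, (sG.1 ≤ ρ ∧ sG.1 ≤ S₀) ∧ sG.2 ∈ T ∧ ¬ (p : ℤ) ∣ (sG.2 : ℤ) ∧
        (i ≤ j → SecHt p (eval z a) (eval z b) (eval z (X i j)) (eval z (Y i j))
          (eval z (W i j)) c sG.1
          (B (if i = j then P i else P i - P j) (if i = j then P i else P i - P j) -
            ulog (((sG.2 : ℕ) : ℤ) : ℤ_[p]) / (c : ℚ_[p]) ^ 2)) := by
      intro i j
      by_cases hij : i ≤ j
      · obtain ⟨h2, h3⟩ := hrep i j hij
        obtain ⟨s', G, g1, g1', g2, g3, g4, g5, g6, g8, g7⟩ := sec_data_w hp5 h2 h3 hord.1 hB hR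
          (hcommon i j hij) hc1 (hcn i j hij)
        refine ⟨(s', G), ⟨g1, hS₀ s' g1 g1'⟩, ?_, g6, fun _ => g7⟩
        have g9 : ∀ l : ℕ, l.Prime → ¬ l ^ (μ + 1) ∣ G := by
          intro l hl hd
          by_cases hlR : (l : ℤ) ∣ R
          · apply g8 l hl h (hK l hl hlR)
            refine (pow_dvd_pow l ?_).trans hd
            rw [← hρ]
            have : (ρ + h) * c ^ 2 ≤ μ := by
              rw [hμ]
              exact Nat.mul_le_mul_left _ (Nat.pow_le_pow_left hcM 2)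
            exact Nat.succ_le_succ this
          · apply hlR
            exact Int.natCast_dvd.mpr (g5 l hl ((dvd_pow_self l (Nat.succ_ne_zero _)).trans hd))
        rw [hT, Finset.mem_filter, Finset.mem_Icc]
        refine ⟨⟨g2, le_of_smooth hRn g2 g5 (fun l hl _ => g9 l hl)⟩, fun l hl hd => ?_, g9⟩
        rw [Nat.mem_primeFactors]
        exact ⟨hl, g5 l hl hd, hRn⟩
      · refine ⟨(0, 1), ⟨Nat.zero_le _, Nat.zero_le _⟩, h1T, ?_, fun h => absurd h hij⟩
        intro hd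
        have := Int.le_of_dvd (by norm_num) hd
        push_cast at this
        omega
    choose sG g1 g2 g3 g4 using h1
    refine ⟨(c, sG), ⟨hc1, hcM⟩, fun i j => ⟨g1 i j, g2 i j, g3 i j⟩, hord,
      Matrix.of fun i j => B (P i) (P j), fun i j => hB.symm _ _, hreg, fun i j hij => ?_⟩
    have h5 := g4 i j hij
    have h6 : qf (Matrix.of fun i j => B (P i) (P j)) i j =
        B (if i = j then P i else P i - P j) (if i = j then P i else P i - P j) := by
      rw [qf]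
      split_ifs with h
      · rfl
      · rw [hB.sub_self]; rfl
    rw [h6]
    exact h5
  choose! f hf0 hf1 hf2 using hdata
  rcases E.eq_empty_or_nonempty with hemp | hne
  · rw [hemp, Finset.card_empty, zero_pow (by omega), zero_mul]; exact Nat.zero_le _
  obtain ⟨q, hq, hmax⟩ := Finset.exists_max_image (E.image f)
    (fun q => (E.filter (fun z => f z = q)).card) (hne.image f)
  have h1 : E.card ≤ (E.filter (fun z => f z = q)).card * (E.image f).card :=
    Finset.card_le_mul_card_image _ _ (fun q' hq' => hmax q' hq')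
  have h2 : (E.image f).card ≤ M' * ((ρ + 1) * T.card) ^ (r * r) := by
    have h3 : E.image f ⊆ (Finset.Icc 1 M') ×ˢ (Fintype.piFinset (fun _ : Fin r =>
        Fintype.piFinset (fun _ : Fin r => (Finset.range (ρ + 1)) ×ˢ T))) := by
      intro v' hv'
      obtain ⟨z, hz, rfl⟩ := Finset.mem_image.mp hv'
      rw [Finset.mem_product]
      refine ⟨Finset.mem_Icc.mpr (hf0 z hz), ?_⟩
      rw [Fintype.mem_piFinset]
      intro i
      rw [Fintype.mem_piFinset]
      intro j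
      obtain ⟨k1, k2, -⟩ := hf1 z hz i j
      rw [Finset.mem_product, Finset.mem_range]
      exact ⟨by omega, k2⟩
    refine (Finset.card_le_card h3).trans (le_of_eq ?_)
    rw [Finset.card_product, Nat.card_Icc, Nat.add_sub_cancel, Fintype.card_piFinset,
      Finset.prod_const, Fintype.card_piFinset, Finset.prod_const,
      Finset.card_univ, Fintype.card_fin, ← pow_mul, Finset.card_product, Finset.card_range]
  obtain ⟨z₀, hz₀, hz₀v⟩ := Finset.mem_image.mp hq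
  have hq1 : 1 ≤ q.1 ∧ q.1 ≤ M' := by rw [← hz₀v]; exact hf0 z₀ hz₀
  have h3 := class_bound_w hwt hp5 hr ha hb hX hY hW hdet
    hq1.1 (fun i j => (q.2 i j).1) (S₀ := S₀)
    (fun i j => by rw [← hz₀v]; exact (hf1 z₀ hz₀ i j).1.2)
    (fun i j => ulog ((((q.2 i j).2 : ℕ) : ℤ) : ℤ_[p]) / (q.1 : ℚ_[p]) ^ 2)
    (by
      intro i j
      have hu : IsUnit ((((q.2 i j).2 : ℕ) : ℤ) : ℤ_[p]) := by
        rw [← hz₀v]; exact isUnit_intCast (hf1 z₀ hz₀ i j).2.2
      have hn := norm_ulog_le (p := p) (by omega) hu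
      have hM0 : ((q.1 : ℕ) : ℚ_[p]) ≠ 0 := by
        exact_mod_cast (by omega : q.1 ≠ 0)
      have hMn := Padic.norm_eq_zpow_neg_valuation hM0
      rw [Padic.valuation_natCast] at hMn
      have hpR : (1 : ℝ) < p := by exact_mod_cast hp1
      have hp0 : (0 : ℝ) < p := by linarith
      rw [norm_div, norm_pow, hMn, ← zpow_natCast, ← zpow_mul]
      rw [div_le_iff₀ (by positivity), ← zpow_natCast, ← zpow_add₀ hp0.ne']
      refine hn.trans ?_
      rw [← zpow_neg_one]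
      apply zpow_le_zpow_right₀ hpR.le
      push_cast
      omega)
    v K N m hm1 hmN hmK (E.filter (fun z => f z = q))
    (fun z hz => (hE z (Finset.mem_filter.mp hz).1).1)
    (fun z hz => by
      obtain ⟨k1, k2⟩ := Finset.mem_filter.mp hz
      rw [← k2]
      exact hf2 z k1)
  -- the power of `p`
  have h4 : p ^ (r + (padicValInt p (heightMatrix d w).det +
      3 * S₀ + (2 * padicValNat p q.1 + 1) * r + 2)) ≤
      p ^ (2 * r + 2) * (Δ₀ * ρ ^ (3 * ρ) * M' ^ (2 * r)) := by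
    have k1 : p ^ padicValInt p (heightMatrix d w).det ≤ Δ₀ := by
      apply Nat.le_of_dvd (Int.natAbs_pos.mpr hdet)
      exact pow_padicValNat_dvd
    have k2 : p ^ padicValNat p q.1 ≤ M' :=
      (Nat.le_of_dvd (by omega) pow_padicValNat_dvd).trans hq1.2
    calc p ^ (r + (padicValInt p (heightMatrix d w).det +
          3 * S₀ + (2 * padicValNat p q.1 + 1) * r + 2))
        = p ^ (2 * r + 2) * (p ^ padicValInt p (heightMatrix d w).det * p ^ (3 * S₀) *
          (p ^ padicValNat p q.1) ^ (2 * r)) := by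
          rw [← pow_mul, ← pow_add, ← pow_add, ← pow_add]; congr 1; ring
      _ ≤ _ := by gcongr
  calc E.card ^ r * m ≤ ((E.filter (fun z => f z = q)).card * (E.image f).card) ^ r * m := by
        gcongr
    _ = (E.image f).card ^ r * ((E.filter (fun z => f z = q)).card ^ r * m) := by ring
    _ ≤ (M' * ((ρ + 1) * T.card) ^ (r * r)) ^ r *
        ((3 ^ n * r * N ^ (∑ i, wt i)) ^ r * (p ^ (2 * r + 2) * (Δ₀ * ρ ^ (3 * ρ) *
          M' ^ (2 * r)))) :=
        Nat.mul_le_mul (Nat.pow_le_pow_left h2 r) (h3.trans (Nat.mul_le_mul_left _ h4))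
    _ = _ := by
        rw [mul_pow (3 ^ n * r)]
        ring

end Pool.Agent.Lib.MP_3550b5_nt.B
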