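import Mathlib
import Pool.Agent.Lib.MP_3550b5_nt.B.Box

/-!
Values divisible by primes.
-/

namespace Pool.Agent.Lib.MP_3550b5_nt.B

open Finset MvPolynomial

/-- A nonzero polynomial is rarely divisible by the prime `l`, uniformly in `l`. PROOF. Induction on
`n`. `n = 0`: `F = C c`, `c ≠ 0`; the box has one element, and if `l ∣ c` then `l ≤ |c|`; constant
`|c|`. Step (as in `card_dvd_lin` of `UDvd.lean`): `G = finSuccEquiv ℤ n F`, `e = G.natDegree`,
`g = G.coeff e ≠ 0`, constant `C'` for `g`, `T = N ^ wt 0 ≥ N ≥ l`. The `z` with `l ∣ g(tail z)`: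
at most `2 T + 1 ≤ 3 T` for each of the tails. The `z` with `l ∤ g(tail z)`: for every tail at most
`e (2 T / l + 1)` (`card_root_classes`), and `(2 T / l + 1) * l ≤ 3 T`. Use `card_le_sum_tail` (or
`Finset.card_le_mul_card_image_of_maps_to` as in `UDvd.lean`). Constant `3 C' + 3 e 3 ^ n`. -/
theorem card_prime_w : ∀ (n : ℕ) (wt : Fin n → ℕ), (∀ i, 1 ≤ wt i) →
    ∀ F : MvPolynomial (Fin n) ℤ, F ≠ 0 → ∃ C : ℕ, ∀ l N : ℕ, l.Prime → l ≤ N →
      ((wbox wt N).filter (fun z => (l : ℤ) ∣ eval z F)).card * l ≤ C * N ^ (∑ i, wt i) := by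
  classical
  intro n
  induction n with
  | zero =>
    intro wt _ F hF
    obtain ⟨c, hc⟩ : ∃ c : ℤ, F = MvPolynomial.C c :=
      ⟨_, MvPolynomial.eq_C_of_isEmpty F⟩
    have hc0 : c ≠ 0 := by
      rintro rfl
      apply hF
      rw [hc, map_zero]
    refine ⟨c.natAbs, fun l N hl hN => ?_⟩
    have hN1 : 1 ≤ N := le_trans hl.pos hN
    have hcard : ((wbox wt N).filter (fun z => (l : ℤ) ∣ eval z F)).card ≤ 1 := by
      refine (Finset.card_filter_le _ _).trans ((card_wbox_le hN1).trans ?_)
      simp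
    by_cases hd : (l : ℤ) ∣ c
    · have h1 := Int.natAbs_dvd_natAbs.mpr hd
      rw [Int.natAbs_natCast] at h1
      have h2 := Nat.le_of_dvd (Int.natAbs_pos.mpr hc0) h1
      have h3 : N ^ (∑ i, wt i) = 1 := by simp
      rw [h3, mul_one]
      calc _ ≤ 1 * l := Nat.mul_le_mul_right _ hcard
        _ ≤ c.natAbs := by rw [one_mul]; exact h2
    · have hempty : ((wbox wt N).filter (fun z => (l : ℤ) ∣ eval z F)) = ∅ := by
        apply Finset.filter_eq_empty_iff.mpr
        intro z _ hd'
        rw [hc, MvPolynomial.eval_C] at hd'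
        exact hd hd'
      rw [hempty]
      simp
  | succ n ih =>
    intro wt hwt F hF
    set G := MvPolynomial.finSuccEquiv ℤ n F with hG
    have hG0 : G ≠ 0 := by
      rw [hG]
      exact (map_ne_zero_iff _ (MvPolynomial.finSuccEquiv ℤ n).injective).mpr hF
    set e := G.natDegree with he
    have hg0 : G.coeff e ≠ 0 := by
      rw [he]
      exact Polynomial.leadingCoeff_ne_zero.mpr hG0
    obtain ⟨C', hC'⟩ := ih (fun i => wt i.succ) (fun i => hwt _) (G.coeff e) hg0
    refine ⟨3 * C' + 3 * e * 3 ^ n, fun l N hl hN => ?_⟩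
    have hN1 : 1 ≤ N := le_trans hl.pos hN
    obtain ⟨T, hT⟩ : ∃ T, T = N ^ wt 0 := ⟨_, rfl⟩
    have hNT : N ≤ T := by
      rw [hT]
      exact Nat.le_self_pow (by have := hwt 0; omega) N
    have hT1 : 1 ≤ T := hN1.trans hNT
    have hlT : l ≤ T := hN.trans hNT
    have hsum : N ^ (∑ i, wt i) = T * N ^ (∑ i : Fin n, wt i.succ) := by
      rw [Fin.sum_univ_succ, pow_add, hT]
    set Bad := (wbox wt N).filter (fun z => (l : ℤ) ∣ eval z F) with hBad
    set P : (Fin (n + 1) → ℤ) → Prop :=
      fun z => (l : ℤ) ∣ eval (Fin.tail z) (G.coeff e) with hP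
    have hsplit := Finset.card_filter_add_card_filter_not (s := Bad) P
    have hmem0 : ∀ z ∈ Bad, |z 0| ≤ (T : ℤ) := by
      intro z hz
      rw [hBad, Finset.mem_filter, mem_wbox] at hz
      rw [hT]
      exact hz.1 0
    have htail : ∀ z ∈ Bad, Fin.tail z ∈ wbox (fun i => wt i.succ) N := by
      intro z hz
      rw [hBad, Finset.mem_filter] at hz
      exact tail_mem_wbox hz.1
    -- first part
    have h1 : (Bad.filter P).card * l ≤ 3 * C' * N ^ (∑ i, wt i) := by
      have h2 : (Bad.filter P).card ≤ ∑ _s ∈ (wbox (fun i => wt i.succ) N).filter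
          (fun s => (l : ℤ) ∣ eval s (G.coeff e)), (2 * T + 1) := by
        apply card_le_sum_tail (fun _ => 2 * T + 1)
        · intro z hz
          rw [Finset.mem_filter] at hz ⊢
          exact ⟨htail z hz.1, hz.2⟩
        · intro s _
          rw [← card_Icc_box T]
          apply Finset.card_le_card
          intro x hx
          obtain ⟨z, hz, rfl⟩ := Finset.mem_image.mp hx
          rw [Finset.mem_Icc, ← abs_le]
          exact hmem0 z (Finset.mem_filter.mp (Finset.mem_filter.mp hz).1).1
      rw [Finset.sum_const, smul_eq_mul] at h2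
      have h3 := hC' l N hl hN
      calc (Bad.filter P).card * l ≤ (((wbox (fun i => wt i.succ) N).filter
            (fun s => (l : ℤ) ∣ eval s (G.coeff e))).card * (2 * T + 1)) * l :=
            Nat.mul_le_mul_right _ h2
        _ = (2 * T + 1) * (((wbox (fun i => wt i.succ) N).filter
            (fun s => (l : ℤ) ∣ eval s (G.coeff e))).card * l) := by ring
        _ ≤ (2 * T + 1) * (C' * N ^ (∑ i : Fin n, wt i.succ)) := Nat.mul_le_mul_left _ h3
        _ ≤ (3 * T) * (C' * N ^ (∑ i : Fin n, wt i.succ)) := Nat.mul_le_mul_right _ (by omega)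
        _ = 3 * C' * N ^ (∑ i, wt i) := by rw [hsum]; ring
    -- second part
    have h2 : (Bad.filter (fun z => ¬ P z)).card * l ≤ 3 * e * 3 ^ n * N ^ (∑ i, wt i) := by
      have h3 : (Bad.filter (fun z => ¬ P z)).card ≤
          ∑ _s ∈ (wbox (fun i => wt i.succ) N).filter
            (fun s => ¬ (l : ℤ) ∣ eval s (G.coeff e)), e * (2 * T / l + 1) := by
        apply card_le_sum_tail (fun _ => e * (2 * T / l + 1))
        · intro z hz
          rw [Finset.mem_filter] at hz ⊢
          exact ⟨htail z hz.1, hz.2⟩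
        · intro s hs
          rw [Finset.mem_filter] at hs
          apply card_root_classes hl (G.map (eval s)) ⟨e, ?_⟩
            (Polynomial.natDegree_map_le.trans he.ge)
          · intro x hx
            obtain ⟨z, hz, rfl⟩ := Finset.mem_image.mp hx
            have h4 := Finset.mem_filter.mp hz
            have h5 := (Finset.mem_filter.mp h4.1).1
            refine ⟨hmem0 z h5, ?_⟩
            rw [hBad, Finset.mem_filter] at h5
            have h6 := h5.2
            rw [← Fin.cons_self_tail z, MvPolynomial.eval_eq_eval_mv_eval', h4.2] at h6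
            exact h6
          · rw [Polynomial.coeff_map]; exact hs.2
      rw [Finset.sum_const, smul_eq_mul] at h3
      have h4 : ((wbox (fun i => wt i.succ) N).filter
          (fun s => ¬ (l : ℤ) ∣ eval s (G.coeff e))).card ≤
          3 ^ n * N ^ (∑ i : Fin n, wt i.succ) :=
        (Finset.card_filter_le _ _).trans (card_wbox_le hN1)
      have h5 : (2 * T / l + 1) * l ≤ 3 * T := by
        have := Nat.div_mul_le_self (2 * T) l
        nlinarith
      calc (Bad.filter (fun z => ¬ P z)).card * l ≤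
            (((wbox (fun i => wt i.succ) N).filter
              (fun s => ¬ (l : ℤ) ∣ eval s (G.coeff e))).card * (e * (2 * T / l + 1))) * l :=
            Nat.mul_le_mul_right _ h3
        _ ≤ ((3 ^ n * N ^ (∑ i : Fin n, wt i.succ)) * (e * (2 * T / l + 1))) * l :=
            Nat.mul_le_mul_right _ (Nat.mul_le_mul_right _ h4)
        _ = (3 ^ n * N ^ (∑ i : Fin n, wt i.succ)) * e * ((2 * T / l + 1) * l) := by ring
        _ ≤ (3 ^ n * N ^ (∑ i : Fin n, wt i.succ)) * e * (3 * T) := Nat.mul_le_mul_left _ h5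
        _ = 3 * e * 3 ^ n * N ^ (∑ i, wt i) := by rw [hsum]; ring
    calc Bad.card * l = (Bad.filter P).card * l +
          (Bad.filter (fun z => ¬ P z)).card * l := by rw [← hsplit]; ring
      _ ≤ 3 * C' * N ^ (∑ i, wt i) + 3 * e * 3 ^ n * N ^ (∑ i, wt i) := Nat.add_le_add h1 h2
      _ = (3 * C' + 3 * e * 3 ^ n) * N ^ (∑ i, wt i) := by ring

end Pool.Agent.Lib.MP_3550b5_nt.B
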