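import Mathlib
import Pool.Agent.Lib.MP_3550b5_nt.B.Box

/-!
Values divisible by prime powers.
-/

namespace Pool.Agent.Lib.MP_3550b5_nt.B

open Finset MvPolynomial

/-- A nonzero polynomial is rarely divisible by a high power of `l`, weighted boxes. PROOF. As
`card_dvd_lin` in `UDvd.lean` (copy): induction on `n`, `T = N ^ wt 0 ≥ N ≥ l ^ j` instead of `N` in
`card_dvd_one`, and `N ^ (∑ i, wt i) = T * N ^ (∑ i, wt i.succ)` (`Fin.sum_univ_succ`). -/
theorem card_dvd_w {l : ℕ} (hl : l.Prime) : ∀ (n : ℕ) (wt : Fin n → ℕ), (∀ i, 1 ≤ wt i) →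
    ∀ F : MvPolynomial (Fin n) ℤ, F ≠ 0 → ∃ A κ f : ℕ, ∀ j N : ℕ, l ^ j ≤ N →
      ((wbox wt N).filter (fun z => (l : ℤ) ^ (κ + j * f) ∣ eval z F)).card * l ^ j ≤
        A * N ^ (∑ i, wt i) := by
  classical
  intro n
  induction n with
  | zero =>
    intro wt _ F hF
    -- `F` is a nonzero constant
    obtain ⟨c, hc⟩ : ∃ c : ℤ, F = MvPolynomial.C c :=
      ⟨_, MvPolynomial.eq_C_of_isEmpty F⟩
    have hc0 : c ≠ 0 := by
      rintro rfl
      apply hF
      rw [hc, map_zero]
    refine ⟨0, c.natAbs, 0, fun j N _ => ?_⟩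
    have hempty : ((wbox wt N).filter
        (fun z => (l : ℤ) ^ (c.natAbs + j * 0) ∣ MvPolynomial.eval z F)) = ∅ := by
      apply Finset.filter_eq_empty_iff.mpr
      intro z _ hd
      rw [mul_zero, add_zero, hc, MvPolynomial.eval_C] at hd
      have h1 := Int.natAbs_dvd_natAbs.mpr hd
      rw [Int.natAbs_pow, Int.natAbs_natCast] at h1
      have h2 := Nat.le_of_dvd (Int.natAbs_pos.mpr hc0) h1
      have h3 := Nat.lt_pow_self (n := c.natAbs) hl.one_lt
      omega
    rw [hempty]
    simp
  | succ n ih =>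
    intro wt hwt F hF
    set G := MvPolynomial.finSuccEquiv ℤ n F with hG
    have hG0 : G ≠ 0 := by
      rw [hG]
      exact (map_ne_zero_iff _ (MvPolynomial.finSuccEquiv ℤ n).injective).mpr hF
    set e := G.natDegree with he
    have hg0 : G.coeff e ≠ 0 := by
      rw [he]
      exact Polynomial.leadingCoeff_ne_zero.mpr hG0
    obtain ⟨A', κ', f', hA'⟩ := ih (fun i => wt i.succ) (fun i => hwt i.succ) (G.coeff e) hg0
    refine ⟨3 * A' + 3 * e * 3 ^ n, κ', f' + e, fun j => ?_⟩
    intro N hN
    obtain ⟨K', hKe⟩ : ∃ K', K' = κ' + j * f' := ⟨_, rfl⟩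
    have hK' : ((wbox (fun i => wt i.succ) N).filter
        (fun z => (l : ℤ) ^ K' ∣ MvPolynomial.eval z (G.coeff e))).card * l ^ j ≤
        A' * N ^ (∑ i, wt (Fin.succ i)) := by rw [hKe]; exact hA' j N hN
    rw [show κ' + j * (f' + e) = K' + j * e by rw [hKe]; ring]
    have hN1 : 1 ≤ N := le_trans (Nat.one_le_pow _ _ hl.pos) hN
    obtain ⟨T, hT⟩ : ∃ T, T = N ^ wt 0 := ⟨_, rfl⟩
    have hNT : N ≤ T := by
      rw [hT]
      exact Nat.le_self_pow (by have := hwt 0; omega) N
    have hjT : l ^ j ≤ T := hN.trans hNT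
    have hT1 : 1 ≤ T := hN1.trans hNT
    have hsum : N ^ (∑ i, wt i) = T * N ^ (∑ i, wt (Fin.succ i)) := by
      rw [Fin.sum_univ_succ, pow_add, hT]
    set Bad := (wbox wt N).filter (fun z => (l : ℤ) ^ (K' + j * e) ∣ MvPolynomial.eval z F)
      with hBad
    set P : (Fin (n + 1) → ℤ) → Prop :=
      fun z => (l : ℤ) ^ K' ∣ MvPolynomial.eval (Fin.tail z) (G.coeff e) with hP
    have hsplit := Finset.card_filter_add_card_filter_not (s := Bad) P
    have htail : ∀ z ∈ Bad, Fin.tail z ∈ wbox (fun i => wt i.succ) N := by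
      intro z hz
      rw [hBad, Finset.mem_filter] at hz
      exact tail_mem_wbox hz.1
    have hfib : ∀ (S : Finset (Fin (n + 1) → ℤ)) (s : Fin n → ℤ), (∀ z ∈ S, Fin.tail z = s) →
        (S.image (fun z => z 0)).card = S.card := by
      intro S s hs
      apply Finset.card_image_of_injOn
      intro z hz z' hz' h0
      have e1 := hs z (Finset.mem_coe.mp hz)
      have e2 := hs z' (Finset.mem_coe.mp hz')
      rw [← Fin.cons_self_tail z, ← Fin.cons_self_tail z', e1, e2]
      simp only at h0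
      rw [h0]
    -- first part
    have h1 : (Bad.filter P).card * l ^ j ≤ 3 * A' * N ^ (∑ i, wt i) := by
      have h2 : (Bad.filter P).card ≤ (2 * T + 1) *
          ((wbox (fun i => wt i.succ) N).filter
            (fun s => (l : ℤ) ^ K' ∣ MvPolynomial.eval s (G.coeff e))).card := by
        apply Finset.card_le_mul_card_image_of_maps_to (f := Fin.tail)
        · intro z hz
          rw [Finset.mem_filter] at hz ⊢
          exact ⟨htail z hz.1, hz.2⟩
        · intro s _
          rw [← hfib _ s (fun z hz => (Finset.mem_filter.mp hz).2), ← card_Icc_box T]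
          apply Finset.card_le_card
          intro x hx
          obtain ⟨z, hz, rfl⟩ := Finset.mem_image.mp hx
          have h3 := (Finset.mem_filter.mp (Finset.mem_filter.mp (Finset.mem_filter.mp hz).1).1).1
          rw [mem_wbox] at h3
          rw [Finset.mem_Icc, ← abs_le, hT]
          exact h3 0
      calc (Bad.filter P).card * l ^ j ≤ ((2 * T + 1) *
            ((wbox (fun i => wt i.succ) N).filter
              (fun s => (l : ℤ) ^ K' ∣ MvPolynomial.eval s (G.coeff e))).card) *
              l ^ j := Nat.mul_le_mul_right _ h2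
        _ = (2 * T + 1) * (((wbox (fun i => wt i.succ) N).filter
            (fun s => (l : ℤ) ^ K' ∣ MvPolynomial.eval s (G.coeff e))).card * l ^ j) := by ring
        _ ≤ (2 * T + 1) * (A' * N ^ (∑ i, wt (Fin.succ i))) := Nat.mul_le_mul_left _ hK'
        _ ≤ (3 * T) * (A' * N ^ (∑ i, wt (Fin.succ i))) := Nat.mul_le_mul_right _ (by omega)
        _ = 3 * A' * N ^ (∑ i, wt i) := by rw [hsum]; ring
    -- second part
    have h2 : (Bad.filter (fun z => ¬ P z)).card * l ^ j ≤
        3 * e * 3 ^ n * N ^ (∑ i, wt i) := by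
      have h3 : ∀ s ∈ (wbox (fun i => wt i.succ) N).filter
          (fun s => ¬ (l : ℤ) ^ K' ∣ MvPolynomial.eval s (G.coeff e)),
          ((Bad.filter (fun z => ¬ P z)).filter (fun z => Fin.tail z = s)).card ≤
            3 * e * T / l ^ j := by
        intro s hs
        rw [Finset.mem_filter] at hs
        rw [← hfib _ s (fun z hz => (Finset.mem_filter.mp hz).2)]
        rw [Nat.le_div_iff_mul_le (pow_pos hl.pos j)]
        apply card_dvd_one hl (K' := K') hjT (G.map (MvPolynomial.eval s))
          (Polynomial.natDegree_map_le.trans he.ge)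
        · rw [Polynomial.coeff_map]; exact hs.2
        · intro x hx
          obtain ⟨z, hz, rfl⟩ := Finset.mem_image.mp hx
          have h4 := Finset.mem_filter.mp hz
          have h5 := Finset.mem_filter.mp (Finset.mem_filter.mp h4.1).1
          rw [mem_wbox] at h5
          refine ⟨by rw [hT]; exact h5.1 0, ?_⟩
          have h6 := h5.2
          rw [← Fin.cons_self_tail z, MvPolynomial.eval_eq_eval_mv_eval', h4.2] at h6
          exact h6
      have h4 : (Bad.filter (fun z => ¬ P z)).card ≤ (3 * e * T / l ^ j) *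
          ((wbox (fun i => wt i.succ) N).filter
          (fun s => ¬ (l : ℤ) ^ K' ∣ MvPolynomial.eval s (G.coeff e))).card := by
        apply Finset.card_le_mul_card_image_of_maps_to (f := Fin.tail) _ _ h3
        intro z hz
        rw [Finset.mem_filter] at hz ⊢
        exact ⟨htail z hz.1, hz.2⟩
      have h5 : ((wbox (fun i => wt i.succ) N).filter
          (fun s => ¬ (l : ℤ) ^ K' ∣ MvPolynomial.eval s (G.coeff e))).card ≤
            3 ^ n * N ^ (∑ i, wt (Fin.succ i)) :=
        (Finset.card_filter_le _ _).trans (card_wbox_le hN1)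
      calc (Bad.filter (fun z => ¬ P z)).card * l ^ j ≤
            ((3 * e * T / l ^ j) * (3 ^ n * N ^ (∑ i, wt (Fin.succ i)))) * l ^ j :=
            Nat.mul_le_mul_right _ (h4.trans (Nat.mul_le_mul_left _ h5))
        _ = (3 * e * T / l ^ j) * l ^ j * (3 ^ n * N ^ (∑ i, wt (Fin.succ i))) := by ring
        _ ≤ (3 * e * T) * (3 ^ n * N ^ (∑ i, wt (Fin.succ i))) :=
            Nat.mul_le_mul_right _ (Nat.div_mul_le_self _ _)
        _ = 3 * e * 3 ^ n * N ^ (∑ i, wt i) := by rw [hsum]; ring
    calc Bad.card * l ^ j = (Bad.filter P).card * l ^ j +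
          (Bad.filter (fun z => ¬ P z)).card * l ^ j := by rw [← hsplit]; ring
      _ ≤ 3 * A' * N ^ (∑ i, wt i) + 3 * e * 3 ^ n * N ^ (∑ i, wt i) := Nat.add_le_add h1 h2
      _ = (3 * A' + 3 * e * 3 ^ n) * N ^ (∑ i, wt i) := by ring

end Pool.Agent.Lib.MP_3550b5_nt.B
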