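import Mathlib
import Pool.Agent.Lib.MP_3550b5_nt.B.Dvd

/-!
Ekedahl's sieve: the sum over the large primes.
-/

namespace Pool.Agent.Lib.MP_3550b5_nt.B

open Finset MvPolynomial

/-- PROOF. `1 / l ^ 2 ≤ 1 / (l - 1) - 1 / l` and telescoping: induction on `N` shows
`∑ l ∈ Ioc L N, 1 / l ^ 2 ≤ 1 / L - 1 / N` for `N ≥ L ≥ 1`. -/
lemma sum_inv_sq_le {L N : ℕ} (hL : 1 ≤ L) :
    ∑ l ∈ Finset.Ioc L N, (1 : ℝ) / (l : ℝ) ^ 2 ≤ 1 / L := by
  have hL0 : (0 : ℝ) < L := by exact_mod_cast hL
  rcases Nat.lt_or_ge N L with h | h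
  · rw [Finset.Ioc_eq_empty (by omega), Finset.sum_empty]
    positivity
  · have key : ∀ k : ℕ, ∑ l ∈ Finset.Ioc L (L + k), (1 : ℝ) / (l : ℝ) ^ 2 ≤
        1 / L - 1 / ((L + k : ℕ) : ℝ) := by
      intro k
      induction k with
      | zero => simp
      | succ k ih =>
        have h1 : Finset.Ioc L (L + (k + 1)) = insert (L + k + 1) (Finset.Ioc L (L + k)) := by
          ext x
          simp only [Finset.mem_Ioc, Finset.mem_insert]
          omega
        have h2 : (L + k + 1) ∉ Finset.Ioc L (L + k) := by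
          simp only [Finset.mem_Ioc]
          omega
        rw [h1, Finset.sum_insert h2]
        have h3 : (0 : ℝ) < ((L + k : ℕ) : ℝ) := by
          have : 0 < L + k := by omega
          exact_mod_cast this
        have h4 : (1 : ℝ) / ((L + k + 1 : ℕ) : ℝ) ^ 2 ≤
            1 / ((L + k : ℕ) : ℝ) - 1 / ((L + (k + 1) : ℕ) : ℝ) := by
          have e1 : ((L + k + 1 : ℕ) : ℝ) = ((L + k : ℕ) : ℝ) + 1 := by push_cast; ring
          have e2 : ((L + (k + 1) : ℕ) : ℝ) = ((L + k : ℕ) : ℝ) + 1 := by push_cast; ring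
          rw [e1, e2]
          generalize ((L + k : ℕ) : ℝ) = a at h3
          rw [div_sub_div _ _ h3.ne' (by positivity), div_le_div_iff₀ (by positivity) (by positivity)]
          nlinarith
        linarith
    obtain ⟨k, rfl⟩ := Nat.exists_eq_add_of_le h
    have h5 := key k
    have h6 : (0 : ℝ) ≤ 1 / ((L + k : ℕ) : ℝ) := by positivity
    linarith

/-- Few prime divisors exceed `N`: PROOF. The product of the prime divisors `> N` of `m` divides `m`
(`Nat.prod_primeFactors_dvd`), so `N ^ k ≤ m ≤ C N ^ e`, where `k` is the number of these prime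
divisors; as `N ≥ 2`, `C ≤ 2 ^ C ≤ N ^ C`, so `N ^ k ≤ N ^ (C + e)`. -/
lemma card_large_primes {N C e m : ℕ} (hN : 2 ≤ N) (hm : m ≠ 0) (hmN : m ≤ C * N ^ e) :
    (m.primeFactors.filter (fun l => N < l)).card ≤ C + e := by
  have h1 : N ^ (m.primeFactors.filter (fun l => N < l)).card ≤
      ∏ l ∈ m.primeFactors.filter (fun l => N < l), l := by
    apply Finset.pow_card_le_prod
    intro l hl
    exact (Finset.mem_filter.mp hl).2.le
  have h2 : ∏ l ∈ m.primeFactors.filter (fun l => N < l), l ≤ ∏ l ∈ m.primeFactors, l := by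
    apply Finset.prod_le_prod_of_subset_of_one_le' (Finset.filter_subset _ _)
    intro l hl _
    exact (Nat.prime_of_mem_primeFactors hl).one_le
  have h3 : ∏ l ∈ m.primeFactors, l ≤ m :=
    Nat.le_of_dvd (Nat.pos_of_ne_zero hm) (Nat.prod_primeFactors_dvd m)
  have h4 : C ≤ N ^ C := by
    calc C ≤ 2 ^ C := Nat.lt_two_pow_self.le
      _ ≤ N ^ C := Nat.pow_le_pow_left hN C
  have h5 : N ^ (m.primeFactors.filter (fun l => N < l)).card ≤ N ^ (C + e) := by
    calc _ ≤ m := h1.trans (h2.trans h3)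
      _ ≤ C * N ^ e := hmN
      _ ≤ N ^ C * N ^ e := Nat.mul_le_mul_right _ h4
      _ = N ^ (C + e) := by rw [pow_add]
  exact (Nat.pow_le_pow_iff_right (by omega)).mp h5

/-- The sum over the primes `l > L` dividing the values of a nonzero polynomial `π` of the numbers of
integers `≤ T` in a residue class modulo `l`.

PROOF. For `N = 1` the box has at most `3 ^ n` elements (`card_wbox_le`), the values are bounded
(`exists_growth_w`: `|π(s)| ≤ C₀`), so there are at most `C₀` primes, and each term is `≤ 3 T`;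
`1 / L + 1 / N ≥ 1`. Let `N ≥ 2`. Split `l ≤ N` and `l > N`. For `l ≤ N ≤ T`:
`2 T / l + 1 ≤ 3 T / l` (real division), exchange the sums:
`∑ s ∑ l ≤ ∑ l ∈ Ioc L N, (3 T / l) * #{s : l ∣ π(s)} ≤ ∑ l ∈ Ioc L N, (3 T / l) * (C N ^ Σ / l)`
(`card_prime_w`, only primes `l` occur) `≤ 3 C T N ^ Σ / L` (`sum_inv_sq_le`). For `l > N`:
`2 T / l + 1 ≤ 2 T / N + 1 ≤ 3 T / N`, at most `C₁ + e` primes (`card_large_primes`,
`exists_growth_w`), and at most `3 ^ n N ^ Σ` vectors `s`. -/
theorem sum_primes_le {n : ℕ} (wt : Fin n → ℕ) (hwt : ∀ i, 1 ≤ wt i) {π : MvPolynomial (Fin n) ℤ}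
    (hπ : π ≠ 0) : ∃ C : ℝ, 0 ≤ C ∧ ∀ L N T : ℕ, 1 ≤ L → 1 ≤ N → N ≤ T →
      ∑ s ∈ (wbox wt N).filter (fun s => eval s π ≠ 0),
        ∑ l ∈ (eval s π).natAbs.primeFactors.filter (fun l => L < l),
          (((2 * T / l + 1 : ℕ)) : ℝ) ≤ C * T * (N : ℝ) ^ (∑ i, wt i) * (1 / L + 1 / N) := by
  classical
  obtain ⟨C, hC⟩ := card_prime_w n wt hwt π hπ
  obtain ⟨C₁, e, hC₁⟩ := exists_growth_w wt π
  refine ⟨3 * C + 3 * 3 ^ n * (C₁ + e), by positivity, fun L N T hL hN hNT => ?_⟩
  obtain ⟨B, hB⟩ : ∃ B, B = ∑ i, wt i := ⟨_, rfl⟩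
  rw [← hB] at hC ⊢
  have hL0 : (0 : ℝ) < L := by exact_mod_cast hL
  have hN0 : (0 : ℝ) < N := by exact_mod_cast hN
  have hT1 : 1 ≤ T := hN.trans hNT
  have hT0 : (0 : ℝ) < T := by exact_mod_cast hT1
  have hbox : (((wbox wt N).filter (fun s => eval s π ≠ 0)).card : ℝ) ≤ 3 ^ n * (N : ℝ) ^ B := by
    have h1 : ((wbox wt N).filter (fun s => eval s π ≠ 0)).card ≤ 3 ^ n * N ^ B := by
      rw [hB]
      exact (Finset.card_filter_le _ _).trans (card_wbox_le hN)
    exact_mod_cast h1
  have hval : ∀ s ∈ (wbox wt N).filter (fun s => eval s π ≠ 0),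
      (eval s π).natAbs ≤ C₁ * N ^ e := by
    intro s hs
    have h1 := hC₁ N hN s (Finset.mem_filter.mp hs).1
    rw [Int.abs_eq_natAbs] at h1
    exact_mod_cast h1
  -- a bound for a single term with `l > N` or `N = 1`
  have hbig : ∀ l : ℕ, N ≤ l → (((2 * T / l + 1 : ℕ)) : ℝ) ≤ 3 * T / N := by
    intro l hl
    have hl0 : 0 < l := lt_of_lt_of_le hN hl
    have h1 : ((2 * T / l : ℕ) : ℝ) ≤ ((2 * T : ℕ) : ℝ) / (l : ℝ) := Nat.cast_div_le
    have h2 : ((2 * T : ℕ) : ℝ) / (l : ℝ) ≤ 2 * T / N := by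
      push_cast
      apply div_le_div_of_nonneg_left (by positivity) hN0
      exact_mod_cast hl
    have h3 : (1 : ℝ) ≤ T / N := by
      rw [le_div_iff₀ hN0, one_mul]
      exact_mod_cast hNT
    push_cast
    have h4 : (3 * (T : ℝ) / N) = 2 * T / N + T / N := by ring
    rw [h4]
    linarith
  rcases Nat.lt_or_ge N 2 with hN2 | hN2
  · -- `N = 1`
    have hN1 : N = 1 := by omega
    subst hN1
    have h1 : ∀ s ∈ (wbox wt 1).filter (fun s => eval s π ≠ 0),
        ∑ l ∈ (eval s π).natAbs.primeFactors.filter (fun l => L < l),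
          (((2 * T / l + 1 : ℕ)) : ℝ) ≤ C₁ * (3 * T) := by
      intro s hs
      have h2 : ∀ l ∈ (eval s π).natAbs.primeFactors.filter (fun l => L < l),
          (((2 * T / l + 1 : ℕ)) : ℝ) ≤ 3 * T := by
        intro l hl
        have h3 := (Nat.prime_of_mem_primeFactors (Finset.mem_filter.mp hl).1).one_le
        have := hbig l h3
        simpa using this
      refine (Finset.sum_le_card_nsmul _ _ _ h2).trans ?_
      rw [nsmul_eq_mul]
      apply mul_le_mul_of_nonneg_right _ (by positivity)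
      have h4 : ((eval s π).natAbs.primeFactors.filter (fun l => L < l)).card ≤ C₁ := by
        calc _ ≤ (eval s π).natAbs.primeFactors.card := Finset.card_filter_le _ _
          _ ≤ (Finset.Icc 1 (eval s π).natAbs).card := by
              apply Finset.card_le_card
              intro l hl
              rw [Finset.mem_Icc]
              exact ⟨(Nat.prime_of_mem_primeFactors hl).one_le, Nat.le_of_mem_primeFactors hl⟩
          _ = (eval s π).natAbs := by simp
          _ ≤ C₁ := by simpa using hval s hs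
      exact_mod_cast h4
    refine (Finset.sum_le_card_nsmul _ _ _ h1).trans ?_
    rw [nsmul_eq_mul]
    have h5 : (((wbox wt 1).filter (fun s => eval s π ≠ 0)).card : ℝ) ≤ 3 ^ n := by
      simpa using hbox
    calc (((wbox wt 1).filter (fun s => eval s π ≠ 0)).card : ℝ) * (C₁ * (3 * T)) ≤
          3 ^ n * (C₁ * (3 * T)) := mul_le_mul_of_nonneg_right h5 (by positivity)
      _ = (3 * 3 ^ n * C₁) * T * 1 := by ring
      _ ≤ (3 * C + 3 * 3 ^ n * (C₁ + e)) * T * (1 / L + 1) := by
          apply mul_le_mul _ _ (by positivity) (by positivity)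
          · apply mul_le_mul_of_nonneg_right _ hT0.le
            have : (0 : ℝ) ≤ 3 * C + 3 * 3 ^ n * e := by positivity
            nlinarith
          · have : (0 : ℝ) ≤ 1 / L := by positivity
            linarith
      _ = (3 * C + 3 * 3 ^ n * (C₁ + e)) * T * ((1 : ℕ) : ℝ) ^ B * (1 / L + 1 / ((1 : ℕ) : ℝ)) := by
          simp
  · -- `N ≥ 2`
    have hsplit : ∀ s ∈ (wbox wt N).filter (fun s => eval s π ≠ 0),
        ∑ l ∈ (eval s π).natAbs.primeFactors.filter (fun l => L < l),
          (((2 * T / l + 1 : ℕ)) : ℝ) ≤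
        (∑ l ∈ (Finset.Ioc L N).filter (fun l : ℕ => l.Prime ∧ (l : ℤ) ∣ eval s π),
          (3 * (T : ℝ)) / l) + (C₁ + e) * (3 * T / N) := by
      intro s hs
      have hs0 := (Finset.mem_filter.mp hs).2
      rw [← Finset.sum_filter_add_sum_filter_not _ (fun l => l ≤ N)]
      apply add_le_add
      · have hsub : ((eval s π).natAbs.primeFactors.filter (fun l => L < l)).filter
            (fun l => l ≤ N) ⊆ (Finset.Ioc L N).filter (fun l : ℕ => l.Prime ∧ (l : ℤ) ∣ eval s π) := by
          intro l hl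
          rw [Finset.mem_filter, Finset.mem_filter] at hl
          rw [Finset.mem_filter, Finset.mem_Ioc]
          refine ⟨⟨hl.1.2, hl.2⟩, Nat.prime_of_mem_primeFactors hl.1.1, ?_⟩
          rw [Int.natCast_dvd]
          exact Nat.dvd_of_mem_primeFactors hl.1.1
        have hmono : ∑ l ∈ ((eval s π).natAbs.primeFactors.filter (fun l => L < l)).filter
            (fun l => l ≤ N), (3 * (T : ℝ)) / (l : ℝ) ≤
            ∑ l ∈ (Finset.Ioc L N).filter (fun l : ℕ => l.Prime ∧ (l : ℤ) ∣ eval s π),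
              (3 * (T : ℝ)) / (l : ℝ) :=
          Finset.sum_le_sum_of_subset_of_nonneg hsub (fun l _ _ => by positivity)
        refine le_trans (Finset.sum_le_sum ?_) hmono
        intro l hl
        rw [Finset.mem_filter, Finset.mem_filter] at hl
        have hl1 : 1 ≤ l := (Nat.prime_of_mem_primeFactors hl.1.1).one_le
        have hl0 : (0 : ℝ) < l := by exact_mod_cast hl1
        have h1 : ((2 * T / l : ℕ) : ℝ) ≤ ((2 * T : ℕ) : ℝ) / (l : ℝ) := Nat.cast_div_le
        have h2 : (1 : ℝ) ≤ T / l := by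
          rw [le_div_iff₀ hl0, one_mul]
          exact_mod_cast hl.2.trans hNT
        push_cast at h1 ⊢
        have h3 : (3 * (T : ℝ)) / l = 2 * T / l + T / l := by ring
        rw [h3]
        linarith
      · have h1 : ∀ l ∈ ((eval s π).natAbs.primeFactors.filter (fun l => L < l)).filter
            (fun l => ¬ l ≤ N), (((2 * T / l + 1 : ℕ)) : ℝ) ≤ 3 * T / N := by
          intro l hl
          have h2 := (Finset.mem_filter.mp hl).2
          exact hbig l (by omega)
        refine (Finset.sum_le_card_nsmul _ _ _ h1).trans ?_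
        rw [nsmul_eq_mul]
        apply mul_le_mul_of_nonneg_right _ (by positivity)
        have h3 : (((eval s π).natAbs.primeFactors.filter (fun l => L < l)).filter
            (fun l => ¬ l ≤ N)).card ≤ C₁ + e := by
          refine (Finset.card_le_card ?_).trans
            (card_large_primes hN2 (Int.natAbs_ne_zero.mpr hs0) (hval s hs))
          intro l hl
          rw [Finset.mem_filter, Finset.mem_filter] at hl
          rw [Finset.mem_filter]
          exact ⟨hl.1.1, by omega⟩
        exact_mod_cast h3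
    refine (Finset.sum_le_sum hsplit).trans ?_
    rw [Finset.sum_add_distrib]
    have hfirst : ∑ s ∈ (wbox wt N).filter (fun s => eval s π ≠ 0),
        ∑ l ∈ (Finset.Ioc L N).filter (fun l : ℕ => l.Prime ∧ (l : ℤ) ∣ eval s π),
          (3 * (T : ℝ)) / l ≤ 3 * C * T * (N : ℝ) ^ B * (1 / L) := by
      have h1 : ∑ s ∈ (wbox wt N).filter (fun s => eval s π ≠ 0),
          ∑ l ∈ (Finset.Ioc L N).filter (fun l : ℕ => l.Prime ∧ (l : ℤ) ∣ eval s π),
            (3 * (T : ℝ)) / l =
          ∑ l ∈ Finset.Ioc L N, ∑ s ∈ (wbox wt N).filter (fun s => eval s π ≠ 0),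
            if (l.Prime ∧ (l : ℤ) ∣ eval s π) then (3 * (T : ℝ)) / l else 0 := by
        rw [Finset.sum_comm]
        apply Finset.sum_congr rfl
        intro s _
        rw [Finset.sum_filter]
      rw [h1]
      have h2 : ∀ l ∈ Finset.Ioc L N, ∑ s ∈ (wbox wt N).filter (fun s => eval s π ≠ 0),
            (if (l.Prime ∧ (l : ℤ) ∣ eval s π) then (3 * (T : ℝ)) / l else 0) ≤
            (3 * C * T * (N : ℝ) ^ B) * (1 / (l : ℝ) ^ 2) := by
        intro l hl
        rw [Finset.mem_Ioc] at hl
        have hl1 : 1 ≤ l := by omega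
        have hl0 : (0 : ℝ) < l := by exact_mod_cast hl1
        by_cases hp : l.Prime
        · rw [← Finset.sum_filter, Finset.sum_const, nsmul_eq_mul]
          have h3 : (((wbox wt N).filter (fun s => eval s π ≠ 0)).filter
              (fun s => l.Prime ∧ (l : ℤ) ∣ eval s π)).card ≤
              ((wbox wt N).filter (fun s => (l : ℤ) ∣ eval s π)).card := by
            apply Finset.card_le_card
            intro s hs
            rw [Finset.mem_filter, Finset.mem_filter] at hs
            rw [Finset.mem_filter]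
            exact ⟨hs.1.1, hs.2.2⟩
          have h4 := hC l N hp hl.2
          have h5 : (((((wbox wt N).filter (fun s => eval s π ≠ 0)).filter
              (fun s => l.Prime ∧ (l : ℤ) ∣ eval s π)).card : ℕ) : ℝ) * l ≤ C * (N : ℝ) ^ B := by
            have := (Nat.mul_le_mul_right l h3).trans h4
            exact_mod_cast this
          have h6 : ((((wbox wt N).filter (fun s => eval s π ≠ 0)).filter
              (fun s => l.Prime ∧ (l : ℤ) ∣ eval s π)).card : ℝ) ≤ C * (N : ℝ) ^ B / l := by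
            rw [le_div_iff₀ hl0]
            exact h5
          calc _ ≤ (C * (N : ℝ) ^ B / l) * (3 * (T : ℝ) / l) :=
                mul_le_mul_of_nonneg_right h6 (by positivity)
            _ = (3 * C * T * (N : ℝ) ^ B) * (1 / (l : ℝ) ^ 2) := by
                field_simp
        · have h3 : ∀ s ∈ (wbox wt N).filter (fun s => eval s π ≠ 0),
              (if (l.Prime ∧ (l : ℤ) ∣ eval s π) then (3 * (T : ℝ)) / l else 0) = 0 := by
            intro s _
            rw [if_neg]
            exact fun h => hp h.1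
          rw [Finset.sum_eq_zero h3]
          positivity
      refine (Finset.sum_le_sum h2).trans ?_
      rw [← Finset.mul_sum]
      exact mul_le_mul_of_nonneg_left (sum_inv_sq_le hL) (by positivity)
    have hsecond : ∑ _s ∈ (wbox wt N).filter (fun s => eval s π ≠ 0),
        ((C₁ : ℝ) + e) * (3 * T / N) ≤ 3 * 3 ^ n * (C₁ + e) * T * (N : ℝ) ^ B * (1 / N) := by
      rw [Finset.sum_const, nsmul_eq_mul]
      calc _ ≤ (3 ^ n * (N : ℝ) ^ B) * (((C₁ : ℝ) + e) * (3 * T / N)) :=
            mul_le_mul_of_nonneg_right hbox (by positivity)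
        _ = 3 * 3 ^ n * (C₁ + e) * T * (N : ℝ) ^ B * (1 / N) := by ring
    refine (add_le_add hfirst hsecond).trans ?_
    have h7 : (0 : ℝ) ≤ T * (N : ℝ) ^ B := by positivity
    have h8 : (0 : ℝ) ≤ 3 * C * (T * (N : ℝ) ^ B) * (1 / N) := by positivity
    have h9 : (0 : ℝ) ≤ 3 * 3 ^ n * (C₁ + e) * (T * (N : ℝ) ^ B) * (1 / L) := by positivity
    nlinarith

end Pool.Agent.Lib.MP_3550b5_nt.B
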