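import Mathlib
import Pool.Agent.Lib.MP_3550b5_nt.B.Eke1

/-!
Ekedahl's sieve: the induction step.
-/

namespace Pool.Agent.Lib.MP_3550b5_nt.B

open Finset MvPolynomial

/-- The sets `S L N` contain at most `C N ^ (∑ i, wt i) (1 / L + 1 / N)` vectors. -/
def Small {n : ℕ} (wt : Fin n → ℕ) (S : ℕ → ℕ → Finset (Fin n → ℤ)) : Prop :=
  ∃ C : ℝ, 0 ≤ C ∧ ∀ L N : ℕ, 1 ≤ L → 1 ≤ N →
    ((S L N).card : ℝ) ≤ C * (N : ℝ) ^ (∑ i, wt i) * (1 / L + 1 / N)

open scoped Classical in
/-- The vectors for which some prime `l > L` divides both values. -/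
noncomputable def bad {n : ℕ} (wt : Fin n → ℕ) (L N : ℕ) (F G : MvPolynomial (Fin n) ℤ) :
    Finset (Fin n → ℤ) :=
  (wbox wt N).filter (fun z => ∃ l : ℕ, l.Prime ∧ L < l ∧ (l : ℤ) ∣ eval z F ∧ (l : ℤ) ∣ eval z G)

lemma mem_bad {n : ℕ} {wt : Fin n → ℕ} {L N : ℕ} {F G : MvPolynomial (Fin n) ℤ} {z : Fin n → ℤ} :
    z ∈ bad wt L N F G ↔ z ∈ wbox wt N ∧
      ∃ l : ℕ, l.Prime ∧ L < l ∧ (l : ℤ) ∣ eval z F ∧ (l : ℤ) ∣ eval z G := by
  classical
  simp [bad]

lemma Small.mono {n : ℕ} {wt : Fin n → ℕ} {S T : ℕ → ℕ → Finset (Fin n → ℤ)} (h : Small wt S)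
    (hST : ∀ L N : ℕ, 1 ≤ L → 1 ≤ N → (T L N).card ≤ (S L N).card) : Small wt T := by
  obtain ⟨C, hC, h⟩ := h
  refine ⟨C, hC, fun L N hL hN => le_trans ?_ (h L N hL hN)⟩
  exact_mod_cast hST L N hL hN

lemma Small.union {n : ℕ} {wt : Fin n → ℕ} {S T : ℕ → ℕ → Finset (Fin n → ℤ)} (h : Small wt S)
    (h' : Small wt T) : Small wt (fun L N => S L N ∪ T L N) := by
  obtain ⟨C, hC, h⟩ := h
  obtain ⟨C', hC', h'⟩ := h'
  refine ⟨C + C', by positivity, fun L N hL hN => ?_⟩
  have h1 : (((S L N ∪ T L N).card : ℕ) : ℝ) ≤ ((S L N).card : ℝ) + ((T L N).card : ℝ) := by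
    exact_mod_cast Finset.card_union_le _ _
  calc _ ≤ _ := h1
    _ ≤ _ := add_le_add (h L N hL hN) (h' L N hL hN)
    _ = _ := by ring

/-- PROOF. `card_zeros_w`, constant `3 ^ n * ∑ i, degreeOf i F`; `1 / N ≤ 1 / L + 1 / N`. -/
lemma Small.zeros {n : ℕ} {wt : Fin n → ℕ} (hwt : ∀ i, 1 ≤ wt i) {F : MvPolynomial (Fin n) ℤ}
    (hF : F ≠ 0) : Small wt (fun _ N => (wbox wt N).filter (fun z => eval z F = 0)) := by
  refine ⟨((3 ^ n * ∑ i, F.degreeOf i : ℕ) : ℝ), by positivity, fun L N hL hN => ?_⟩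
  have h1 := card_zeros_w hwt hF hN
  have hN0 : (0 : ℝ) < N := by exact_mod_cast hN
  have hL0 : (0 : ℝ) < L := by exact_mod_cast hL
  have h2 : (((wbox wt N).filter (fun z => eval z F = 0)).card : ℝ) * N ≤
      ((3 ^ n * ∑ i, F.degreeOf i : ℕ) : ℝ) * (N : ℝ) ^ (∑ i, wt i) := by exact_mod_cast h1
  rw [← le_div_iff₀ hN0] at h2
  have h3 : (1 : ℝ) / N ≤ 1 / L + 1 / N := by
    have : (0 : ℝ) ≤ 1 / L := by positivity
    linarith
  calc (((wbox wt N).filter (fun z => eval z F = 0)).card : ℝ)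
      ≤ ((3 ^ n * ∑ i, F.degreeOf i : ℕ) : ℝ) * (N : ℝ) ^ (∑ i, wt i) / N := h2
    _ = ((3 ^ n * ∑ i, F.degreeOf i : ℕ) : ℝ) * (N : ℝ) ^ (∑ i, wt i) * (1 / N) := by ring
    _ ≤ ((3 ^ n * ∑ i, F.degreeOf i : ℕ) : ℝ) * (N : ℝ) ^ (∑ i, wt i) * (1 / L + 1 / N) :=
        mul_le_mul_of_nonneg_left h3 (by positivity)

/-- If the tails are in a small set, the set is small. PROOF. `card_le_sum_tail` with
`k s = 2 N ^ wt 0 + 1 ≤ 3 N ^ wt 0`; constant `3 C`. -/
lemma Small.tail {n : ℕ} {wt : Fin (n + 1) → ℕ} {S : ℕ → ℕ → Finset (Fin (n + 1) → ℤ)}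
    {T : ℕ → ℕ → Finset (Fin n → ℤ)} (h : Small (fun i => wt i.succ) T)
    (hS : ∀ L N : ℕ, ∀ z ∈ S L N, z ∈ wbox wt N ∧ Fin.tail z ∈ T L N) : Small wt S := by
  classical
  obtain ⟨C, hC, h⟩ := h
  refine ⟨3 * C, by positivity, fun L N hL hN => ?_⟩
  have hL0 : (0 : ℝ) < L := by exact_mod_cast hL
  have hN0 : (0 : ℝ) < N := by exact_mod_cast hN
  have h1 : (S L N).card ≤ ∑ _s ∈ T L N, (2 * N ^ wt 0 + 1) := by
    apply card_le_sum_tail (fun _ => 2 * N ^ wt 0 + 1) (fun z hz => (hS L N z hz).2)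
    intro s _
    rw [← card_Icc_box (N ^ wt 0)]
    apply Finset.card_le_card
    intro x hx
    obtain ⟨z, hz, rfl⟩ := Finset.mem_image.mp hx
    have h3 := (hS L N z (Finset.mem_filter.mp hz).1).1
    rw [mem_wbox] at h3
    rw [Finset.mem_Icc, ← abs_le]
    exact h3 0
  rw [Finset.sum_const, smul_eq_mul] at h1
  have h2 : 2 * N ^ wt 0 + 1 ≤ 3 * N ^ wt 0 := by
    have := Nat.one_le_pow (wt 0) N hN
    omega
  have h3 : (S L N).card ≤ (T L N).card * (3 * N ^ wt 0) := h1.trans (Nat.mul_le_mul_left _ h2)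
  have h4 : ((S L N).card : ℝ) ≤ ((T L N).card : ℝ) * (3 * (N : ℝ) ^ wt 0) := by
    exact_mod_cast h3
  rw [Fin.sum_univ_succ, pow_add]
  calc ((S L N).card : ℝ) ≤ ((T L N).card : ℝ) * (3 * (N : ℝ) ^ wt 0) := h4
    _ ≤ (C * (N : ℝ) ^ (∑ i : Fin n, wt i.succ) * (1 / L + 1 / N)) * (3 * (N : ℝ) ^ wt 0) :=
        mul_le_mul_of_nonneg_right (h L N hL hN) (by positivity)
    _ = 3 * C * ((N : ℝ) ^ wt 0 * (N : ℝ) ^ (∑ i : Fin n, wt i.succ)) * (1 / L + 1 / N) := by
        ring

/-- PROOF. `rename Fin.succ π` has the value `eval (tail z) π` at `z` (`eval_rename`).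

Let `G = finSuccEquiv ℤ n F`, `h = G.coeff i`. The vectors `z` of the set are covered by three sets:
`π(tail z) = 0` (`Small.zeros` for `π`, then `Small.tail`); `tail z ∈ bad (π, h)` (`hsm`, then
`Small.tail`); and the set `E` of all other vectors. For `z ∈ E` put `s = tail z`: `π(s) ≠ 0`, and
for some prime `l > L` with `l ∣ π(s)`, `l ∣ F(z)` we have `l ∤ h(s)`, as otherwise `s ∈ bad (π, h)`.
By `card_le_sum_tail` (`T` = the `s` with `π(s) ≠ 0`) with `k s = ∑ l ∈ (eval s π).natAbs.primeFactors.filter (L < ·),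
D * (2 T / l + 1)`, `D = G.natDegree`, `T = N ^ wt 0`: the first coordinates of the `z ∈ E` with tail
`s` are in the union over these `l` (with `l ∤ h(s)`) of the sets of `x` with `|x| ≤ T`,
`l ∣ Q(x)`, where `Q = G.map (eval s)` (`eval_eq_eval_mv_eval'`, see `UDvd.lean`);
`Finset.card_biUnion_le` and `card_root_classes`. Sum with `sum_primes_le` (`N ≤ T` as
`wt 0 ≥ 1`); `T * N ^ (∑ i, wt i.succ) = N ^ (∑ i, wt i)` (`Fin.sum_univ_succ`). -/
theorem small_step {n : ℕ} {wt : Fin (n + 1) → ℕ} (hwt : ∀ i, 1 ≤ wt i)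
    (F : MvPolynomial (Fin (n + 1)) ℤ) {π : MvPolynomial (Fin n) ℤ} (hπ : π ≠ 0) (i : ℕ)
    (hsm : Small (fun i => wt i.succ)
      (fun L N => bad (fun i => wt i.succ) L N π ((finSuccEquiv ℤ n F).coeff i))) :
    Small wt (fun L N => bad wt L N F (rename Fin.succ π)) := by
  classical
  have hwt' : ∀ i : Fin n, 1 ≤ wt i.succ := fun i => hwt i.succ
  have hren : ∀ z : Fin (n + 1) → ℤ, eval z (rename Fin.succ π) = eval (Fin.tail z) π := by
    intro z
    rw [eval_rename]
    rfl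
  set G := finSuccEquiv ℤ n F with hG
  -- the three covering families
  have hA : Small wt (fun _ N => (wbox wt N).filter (fun z => eval (Fin.tail z) π = 0)) := by
    apply Small.tail (Small.zeros hwt' hπ)
    intro L N z hz
    rw [Finset.mem_filter] at hz
    exact ⟨hz.1, Finset.mem_filter.mpr ⟨tail_mem_wbox hz.1, hz.2⟩⟩
  have hB : Small wt (fun L N => (wbox wt N).filter
      (fun z => Fin.tail z ∈ bad (fun i : Fin n => wt i.succ) L N π (G.coeff i))) := by
    apply Small.tail hsm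
    intro L N z hz
    rw [Finset.mem_filter] at hz
    exact hz
  have hE : Small wt (fun L N => (bad wt L N F (rename Fin.succ π)).filter
      (fun z => eval (Fin.tail z) π ≠ 0 ∧
        Fin.tail z ∉ bad (fun i : Fin n => wt i.succ) L N π (G.coeff i))) := by
    obtain ⟨C, hC, hsum⟩ := sum_primes_le (fun i : Fin n => wt i.succ) hwt' hπ
    have key : ∀ L N : ℕ, 1 ≤ L → 1 ≤ N → ∀ E : Finset (Fin (n + 1) → ℤ),
        (∀ z ∈ E, z ∈ bad wt L N F (rename Fin.succ π) ∧ eval (Fin.tail z) π ≠ 0 ∧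
          Fin.tail z ∉ bad (fun i : Fin n => wt i.succ) L N π (G.coeff i)) →
        (E.card : ℝ) ≤ G.natDegree * C * (N : ℝ) ^ (∑ i, wt i) * (1 / L + 1 / N) := by
     intro L N hL hN E hEdef
     have hNT : N ≤ N ^ wt 0 := Nat.le_self_pow (by have := hwt 0; omega) N
     have h1 : E.card ≤ ∑ s ∈ (wbox (fun i : Fin n => wt i.succ) N).filter
         (fun s => eval s π ≠ 0),
         ∑ l ∈ (eval s π).natAbs.primeFactors.filter (fun l => L < l),
           G.natDegree * (2 * N ^ wt 0 / l + 1) := by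
       apply card_le_sum_tail (fun s => ∑ l ∈ (eval s π).natAbs.primeFactors.filter
         (fun l => L < l), G.natDegree * (2 * N ^ wt 0 / l + 1))
       · intro z hz
         have hz' := hEdef z hz
         have ht : Fin.tail z ∈ wbox (fun i : Fin n => wt i.succ) N :=
           tail_mem_wbox (mem_bad.mp hz'.1).1
         exact Finset.mem_filter.mpr ⟨ht, hz'.2.1⟩
       · intro s hs
         rw [Finset.mem_filter] at hs
         -- the first coordinates
         set P := ((eval s π).natAbs.primeFactors.filter (fun l => L < l)).filter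
           (fun l : ℕ => ¬ (l : ℤ) ∣ eval s (G.coeff i)) with hP
         have hsub : (E.filter (fun z => Fin.tail z = s)).image (fun z => z 0) ⊆
             P.biUnion (fun l => (Finset.Icc (-((N ^ wt 0 : ℕ) : ℤ)) ((N ^ wt 0 : ℕ) : ℤ)).filter
               (fun x => (l : ℤ) ∣ (G.map (eval s)).eval x)) := by
           intro x hx
           obtain ⟨z, hz, rfl⟩ := Finset.mem_image.mp hx
           rw [Finset.mem_filter] at hz
           obtain ⟨hzE, hts⟩ := hz
           obtain ⟨hzbad, hπz, hnb⟩ := hEdef z hzE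
           obtain ⟨hzb, l, hl, hLl, hlF, hlπ⟩ := mem_bad.mp hzbad
           rw [hren] at hlπ
           have ht : Fin.tail z ∈ wbox (fun i : Fin n => wt i.succ) N := tail_mem_wbox hzb
           rw [Finset.mem_biUnion]
           refine ⟨l, ?_, ?_⟩
           · rw [hP, Finset.mem_filter, Finset.mem_filter, Nat.mem_primeFactors]
             refine ⟨⟨⟨hl, ?_, ?_⟩, hLl⟩, ?_⟩
             · rw [← hts]
               exact Int.natCast_dvd.mp hlπ
             · rw [← hts]
               exact Int.natAbs_ne_zero.mpr hπz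
             · intro hd
               apply hnb
               rw [mem_bad]
               exact ⟨ht, l, hl, hLl, hlπ, by rw [hts]; exact hd⟩
           · rw [Finset.mem_filter]
             refine ⟨?_, ?_⟩
             · rw [Finset.mem_Icc, ← abs_le]
               exact (mem_wbox.mp hzb) 0
             · rw [← Fin.cons_self_tail z, eval_eq_eval_mv_eval', hts] at hlF
               exact hlF
         calc ((E.filter (fun z => Fin.tail z = s)).image (fun z => z 0)).card
             ≤ _ := Finset.card_le_card hsub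
           _ ≤ _ := Finset.card_biUnion_le
           _ ≤ ∑ l ∈ P, G.natDegree * (2 * N ^ wt 0 / l + 1) := by
               apply Finset.sum_le_sum
               intro l hl
               rw [hP, Finset.mem_filter, Finset.mem_filter] at hl
               have hlp : l.Prime := Nat.prime_of_mem_primeFactors hl.1.1
               apply card_root_classes hlp (G.map (eval s)) ⟨i, ?_⟩ Polynomial.natDegree_map_le
               · intro x hx
                 rw [Finset.mem_filter, Finset.mem_Icc, ← abs_le] at hx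
                 exact hx
               · rw [Polynomial.coeff_map]
                 exact hl.2
           _ ≤ _ := Finset.sum_le_sum_of_subset (Finset.filter_subset _ _)
     have h2 := hsum L N (N ^ wt 0) hL hN hNT
     have h3 : (E.card : ℝ) ≤ G.natDegree *
         ∑ s ∈ (wbox (fun i : Fin n => wt i.succ) N).filter (fun s => eval s π ≠ 0),
         ∑ l ∈ (eval s π).natAbs.primeFactors.filter (fun l => L < l),
           (((2 * N ^ wt 0 / l + 1 : ℕ)) : ℝ) := by
       have h1' := (Nat.cast_le (α := ℝ)).mpr h1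
       refine h1'.trans (le_of_eq ?_)
       push_cast
       simp only [Finset.mul_sum]
     calc (E.card : ℝ) ≤ _ := h3
       _ ≤ G.natDegree * (C * ((N ^ wt 0 : ℕ) : ℝ) * (N : ℝ) ^ (∑ i : Fin n, wt i.succ) *
             (1 / L + 1 / N)) := mul_le_mul_of_nonneg_left h2 (by positivity)
       _ = G.natDegree * C * (N : ℝ) ^ (∑ i, wt i) * (1 / L + 1 / N) := by
           rw [Fin.sum_univ_succ, pow_add]
           push_cast
           ring
    exact ⟨G.natDegree * C, by positivity, fun L N hL hN => key L N hL hN _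
      (fun z hz => ⟨(Finset.mem_filter.mp hz).1, (Finset.mem_filter.mp hz).2.1,
        (Finset.mem_filter.mp hz).2.2⟩)⟩
  apply ((hA.union hB).union hE).mono
  intro L N _ _
  apply Finset.card_le_card
  intro z hz
  have hzb : z ∈ wbox wt N := (mem_bad.mp hz).1
  rw [Finset.mem_union, Finset.mem_union, Finset.mem_filter, Finset.mem_filter, Finset.mem_filter]
  by_cases h1 : eval (Fin.tail z) π = 0
  · exact Or.inl (Or.inl ⟨hzb, h1⟩)
  · by_cases h2 : Fin.tail z ∈ bad (fun i : Fin n => wt i.succ) L N π (G.coeff i)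
    · exact Or.inl (Or.inr ⟨hzb, h2⟩)
    · exact Or.inr ⟨hz, h1, h2⟩

end Pool.Agent.Lib.MP_3550b5_nt.B
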