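import Mathlib
import Pool.Agent.Lib.MP_3550b5_nt.B.Eke2
import Pool.Agent.Lib.MP_3550b5_nt.G.Zero

/-!
Ekedahl's sieve.
-/

namespace Pool.Agent.Lib.MP_3550b5_nt.B

open Finset MvPolynomial

/-- The common divisors of `F` and `G` are constants. -/
def Cop {n : ℕ} (F G : MvPolynomial (Fin n) ℤ) : Prop :=
  ∀ D : MvPolynomial (Fin n) ℤ, D ∣ F → D ∣ G → ∃ c : ℤ, D = C c

/-- PROOF. Let `C q = π`; `q` is prime. A prime `l` dividing `q` is `|q|`. So the set is empty for
`L ≥ |q|` and otherwise `L < |q|` and the set has at most `3 ^ n N ^ Σ ≤ 3 ^ n |q| N ^ Σ / L`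
elements (`card_wbox_le`). -/
lemma small_const {n : ℕ} {wt : Fin n → ℕ} (F : MvPolynomial (Fin n) ℤ) {q : ℤ}
    (hq : q ≠ 0) : Small wt (fun L N => bad wt L N F (C q)) := by
  refine ⟨3 ^ n * (q.natAbs : ℝ), by positivity, fun L N hL hN => ?_⟩
  have hL' : (0 : ℝ) < L := by exact_mod_cast hL
  have hN' : (0 : ℝ) < N := by exact_mod_cast hN
  by_cases hLq : q.natAbs ≤ L
  · have he : bad wt L N F (C q) = ∅ := by
      rw [Finset.eq_empty_iff_forall_notMem]
      intro z hz
      obtain ⟨-, l, -, hl, -, hd⟩ := mem_bad.1 hz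
      rw [eval_C] at hd
      have h1 := Nat.le_of_dvd (Int.natAbs_pos.2 hq) (Int.natCast_dvd.1 hd)
      omega
    show ((bad wt L N F (C q)).card : ℝ) ≤ _
    rw [he, Finset.card_empty, Nat.cast_zero]
    positivity
  · push Not at hLq
    have h1 : (bad wt L N F (C q)).card ≤ 3 ^ n * N ^ (∑ i, wt i) := by
      refine le_trans (Finset.card_le_card ?_) (card_wbox_le hN)
      intro z hz
      exact (mem_bad.1 hz).1
    have h2 : ((bad wt L N F (C q)).card : ℝ) ≤ 3 ^ n * (N : ℝ) ^ (∑ i, wt i) := by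
      exact_mod_cast h1
    have h3 : (1 : ℝ) ≤ (q.natAbs : ℝ) * (1 / L) := by
      rw [mul_one_div, one_le_div hL']
      exact_mod_cast hLq.le
    have h4 : (0 : ℝ) ≤ 1 / (N : ℝ) := by positivity
    have h5 : (0 : ℝ) ≤ 3 ^ n * (N : ℝ) ^ (∑ i, wt i) := by positivity
    have h6 : (0 : ℝ) ≤ (q.natAbs : ℝ) := by positivity
    calc ((bad wt L N F (C q)).card : ℝ) ≤ 3 ^ n * (N : ℝ) ^ (∑ i, wt i) := h2
      _ ≤ 3 ^ n * (N : ℝ) ^ (∑ i, wt i) * ((q.natAbs : ℝ) * (1 / L)) :=
          le_mul_of_one_le_right h5 h3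
      _ ≤ 3 ^ n * (N : ℝ) ^ (∑ i, wt i) * ((q.natAbs : ℝ) * (1 / L + 1 / N)) := by
          refine mul_le_mul_of_nonneg_left (mul_le_mul_of_nonneg_left ?_ h6) h5
          linarith
      _ = 3 ^ n * (q.natAbs : ℝ) * (N : ℝ) ^ (∑ i, wt i) * (1 / L + 1 / N) := by ring

private lemma fse_rename {n : ℕ} (ρ : MvPolynomial (Fin n) ℤ) :
    finSuccEquiv ℤ n (rename Fin.succ ρ) = Polynomial.C ρ := by
  induction ρ using MvPolynomial.induction_on with
  | C a =>
    rw [rename_C]
    rw [show (C a : MvPolynomial (Fin (n + 1)) ℤ) = ((a : ℤ) : MvPolynomial (Fin (n + 1)) ℤ)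
      from eq_intCast _ a, show (C a : MvPolynomial (Fin n) ℤ) = ((a : ℤ) : MvPolynomial (Fin n) ℤ)
      from eq_intCast _ a, map_intCast, map_intCast]
  | add p q hp hq => rw [map_add, map_add, hp, hq, map_add]
  | mul_X p i hp => rw [map_mul, map_mul, hp, rename_X, finSuccEquiv_X_succ, map_mul]

private lemma exists_coeff {n : ℕ} {F : MvPolynomial (Fin (n + 1)) ℤ}
    {π : MvPolynomial (Fin n) ℤ} (h : ¬ rename Fin.succ π ∣ F) :
    ∃ i, ¬ π ∣ (finSuccEquiv ℤ n F).coeff i := by
  by_contra hcon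
  push Not at hcon
  apply h
  have h1 : Polynomial.C π ∣ finSuccEquiv ℤ n F := (Polynomial.C_dvd_iff_dvd_coeff _ _).2 hcon
  rw [← fse_rename] at h1
  have h2 := map_dvd (finSuccEquiv ℤ n).symm h1
  rwa [AlgEquiv.symm_apply_apply, AlgEquiv.symm_apply_apply] at h2

private lemma cop_of_prime {n : ℕ} {π h : MvPolynomial (Fin n) ℤ} (hπ : Prime π)
    (hh : ¬ π ∣ h) : Cop π h := by
  intro D h1 h2
  obtain ⟨E, hE⟩ := h1
  rcases hπ.irreducible.isUnit_or_isUnit hE with hu | hu
  · rw [MvPolynomial.isUnit_iff_eq_C_of_isReduced] at hu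
    obtain ⟨r, -, hr⟩ := hu
    exact ⟨r, hr⟩
  · exfalso
    apply hh
    have h3 : π ∣ D := by
      rw [hE]
      exact (hu.mul_right_dvd).2 dvd_rfl
    exact h3.trans h2

private lemma small_half {n : ℕ} {wt : Fin (n + 1) → ℕ} (hwt : ∀ i, 1 ≤ wt i)
    (ih : ∀ F G : MvPolynomial (Fin n) ℤ, Cop F G → (F ≠ 0 ∨ G ≠ 0) →
      Small (fun i => wt i.succ) (fun L N => bad (fun i => wt i.succ) L N F G))
    {F : MvPolynomial (Fin (n + 1)) ℤ} {π : MvPolynomial (Fin n) ℤ}
    (hπ : Prime π) (h : ¬ rename Fin.succ π ∣ F) :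
    Small wt (fun L N => bad wt L N F (rename Fin.succ π)) := by
  obtain ⟨i, hi⟩ := exists_coeff h
  exact small_step hwt F hπ.ne_zero i (ih _ _ (cop_of_prime hπ hi) (Or.inl hπ.ne_zero))

/-- One prime factor. PROOF. If `π = C q`, `small_const` (`rename` of a constant is the constant).
Otherwise `rename Fin.succ π` does not divide both `F` and `G` (it is not a constant: `rename` along
`Fin.succ` is injective). Say it does not divide `F` (the other case is the same as the conclusion is
symmetric: use `Small.mono`). With `finSuccEquiv ℤ n (rename Fin.succ π) = Polynomial.C π` (proved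
inside `elim_mv` in `G/Zero.lean`) and `Polynomial.C_dvd_iff_dvd_coeff` there is a coefficient `h` of
`finSuccEquiv ℤ n F` which `π` does not divide. `Cop π h`: a divisor `D` of the prime `π` is a unit
(then a constant, `MvPolynomial.isUnit_iff_eq_C_of_isReduced`) or associated to `π`
(`Irreducible.dvd_iff` / `Associated`), but `π ∤ h`. So `ih` and `small_step` give the bound for
`bad (F, rename succ π)`, which contains our set. -/
lemma small_prime {n : ℕ} {wt : Fin (n + 1) → ℕ} (hwt : ∀ i, 1 ≤ wt i)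
    (ih : ∀ F G : MvPolynomial (Fin n) ℤ, Cop F G → (F ≠ 0 ∨ G ≠ 0) →
      Small (fun i => wt i.succ) (fun L N => bad (fun i => wt i.succ) L N F G))
    {F G : MvPolynomial (Fin (n + 1)) ℤ} (hc : Cop F G) {π : MvPolynomial (Fin n) ℤ}
    (hπ : Prime π) : Small wt (fun L N => bad wt L N F (rename Fin.succ π) ∩
      bad wt L N G (rename Fin.succ π)) := by
  by_cases hconst : ∃ q : ℤ, π = C q
  · obtain ⟨q, rfl⟩ := hconst
    have hq : q ≠ 0 := by
      rintro rfl
      exact hπ.ne_zero (by rw [map_zero])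
    refine (small_const (wt := wt) F hq).mono fun L N _ _ => Finset.card_le_card ?_
    rw [rename_C]
    exact Finset.inter_subset_left
  · have hnot : ¬ (rename Fin.succ π ∣ F ∧ rename Fin.succ π ∣ G) := by
      rintro ⟨h1, h2⟩
      obtain ⟨c, hcc⟩ := hc _ h1 h2
      apply hconst
      refine ⟨c, rename_injective _ (Fin.succ_injective n) ?_⟩
      rw [hcc, rename_C]
    by_cases h1 : rename Fin.succ π ∣ F
    · have h2 : ¬ rename Fin.succ π ∣ G := fun h => hnot ⟨h1, h⟩
      exact (small_half hwt ih hπ h2).mono fun L N _ _ =>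
        Finset.card_le_card Finset.inter_subset_right
    · exact (small_half hwt ih hπ h1).mono fun L N _ _ =>
        Finset.card_le_card Finset.inter_subset_left

/-- Ekedahl's sieve, in weighted boxes: if `F` and `G` have only constant common divisors (and are
not both zero), at most `C N ^ Σ (1 / L + 1 / N)` vectors `z` of the box have a prime `l > L` dividing
both `F(z)` and `G(z)`.

PROOF. Induction on `n`, for all weights, `F`, `G`. `n = 0`: `F = C f`, `G = C g`
(`eq_C_of_isEmpty`); if `g ≠ 0` use `small_const`; if `f ≠ 0` use it for `bad (G, F)` (same set).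
Step: `elim_mv` (in `G/Zero.lean`) gives `U F + V G = rename succ ρ`, `ρ ≠ 0`. For `ρ' ≠ 0` in
`MvPolynomial (Fin n) ℤ` let `S ρ'` be the set of the `z` in the box such that some prime `l > L`
divides `F(z)`, `G(z)` and `eval (tail z) ρ'`. `S ρ'` is small for all `ρ' ≠ 0`, by induction over
the prime factors (`UniqueFactorizationMonoid.induction_on_prime`): for a unit `ρ'` the value is a
unit (`IsUnit.map`) and `S ρ'` is empty; `S (π ρ') ⊆ S π ∪ S ρ'` (`l` is prime), `Small.union`, and
`S π ⊆ bad (F, rename succ π) ∩ bad (G, rename succ π)`, `small_prime` (with the induction hypothesis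
for `n`). Finally `bad (F, G) ⊆ S ρ`. -/
theorem ekedahl : ∀ (n : ℕ) (wt : Fin n → ℕ), (∀ i, 1 ≤ wt i) →
    ∀ F G : MvPolynomial (Fin n) ℤ, Cop F G → (F ≠ 0 ∨ G ≠ 0) →
      Small wt (fun L N => bad wt L N F G) := by
  classical
  intro n
  induction n with
  | zero =>
    intro wt _ F G _ hFG
    rcases hFG with hF | hG
    · obtain ⟨f, hf⟩ : ∃ f : ℤ, F = C f := ⟨_, eq_C_of_isEmpty F⟩
      subst hf
      have hf : f ≠ 0 := by
        rintro rfl
        exact hF (by rw [map_zero])
      refine (small_const (wt := wt) G hf).mono fun L N _ _ => Finset.card_le_card ?_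
      intro z hz
      obtain ⟨h1, l, h2, h3, h4, h5⟩ := mem_bad.1 hz
      exact mem_bad.2 ⟨h1, l, h2, h3, h5, h4⟩
    · obtain ⟨g, hg⟩ : ∃ g : ℤ, G = C g := ⟨_, eq_C_of_isEmpty G⟩
      subst hg
      have hg : g ≠ 0 := by
        rintro rfl
        exact hG (by rw [map_zero])
      exact small_const (wt := wt) F hg
  | succ n ihn =>
    intro wt hwt F G hc _
    have ih := ihn (fun i => wt i.succ) (fun i => hwt i.succ)
    obtain ⟨U, V, ρ, hρ, huv⟩ := Pool.Agent.Lib.MP_3550b5_nt.G.elim_mv hc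
    let S : MvPolynomial (Fin n) ℤ → ℕ → ℕ → Finset (Fin (n + 1) → ℤ) := fun ρ' L N =>
      (wbox wt N).filter (fun z => ∃ l : ℕ, l.Prime ∧ L < l ∧ (l : ℤ) ∣ eval z F ∧
        (l : ℤ) ∣ eval z G ∧ (l : ℤ) ∣ eval z (rename Fin.succ ρ'))
    have hS : ∀ ρ' : MvPolynomial (Fin n) ℤ, ρ' ≠ 0 → Small wt (S ρ') := by
      intro ρ'
      induction ρ' using UniqueFactorizationMonoid.induction_on_prime with
      | h₁ => intro h; exact absurd rfl h
      | h₂ a ha =>
        intro _
        refine ⟨0, le_rfl, fun L N hL hN => ?_⟩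
        have he : S a L N = ∅ := by
          rw [Finset.eq_empty_iff_forall_notMem]
          intro z hz
          obtain ⟨-, l, h2, -, -, -, h5⟩ := Finset.mem_filter.1 hz
          have hu : IsUnit (eval z (rename Fin.succ a)) :=
            (ha.map (rename Fin.succ)).map (eval z)
          have h6 : IsUnit (l : ℤ) := isUnit_of_dvd_unit h5 hu
          rw [Int.isUnit_iff_natAbs_eq, Int.natAbs_natCast] at h6
          exact h2.one_lt.ne' h6
        rw [he]
        simp
      | h₃ a π ha hπ hsm =>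
        intro _
        have h1 := small_prime (F := F) (G := G) hwt ih hc hπ
        refine ((h1.union (hsm ha))).mono fun L N _ _ => Finset.card_le_card ?_
        intro z hz
        obtain ⟨h1, l, h2, h3, h4, h5, h6⟩ := Finset.mem_filter.1 hz
        rw [map_mul, map_mul] at h6
        rcases (Nat.prime_iff_prime_int.1 h2).dvd_or_dvd h6 with h7 | h7
        · exact Finset.mem_union_left _ (Finset.mem_inter.2
            ⟨mem_bad.2 ⟨h1, l, h2, h3, h4, h7⟩, mem_bad.2 ⟨h1, l, h2, h3, h5, h7⟩⟩)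
        · exact Finset.mem_union_right _ (Finset.mem_filter.2 ⟨h1, l, h2, h3, h4, h5, h7⟩)
    refine (hS ρ hρ).mono fun L N _ _ => Finset.card_le_card ?_
    intro z hz
    obtain ⟨h1, l, h2, h3, h4, h5⟩ := mem_bad.1 hz
    refine Finset.mem_filter.2 ⟨h1, l, h2, h3, h4, h5, ?_⟩
    rw [← huv, map_add, map_mul, map_mul]
    exact dvd_add (h4.mul_left _) (h5.mul_left _)

end Pool.Agent.Lib.MP_3550b5_nt.B
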