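import Mathlib
import Pool.Agent.Lib.MP_3550b5_nt.B.Count

/-!
The good members, for all small primes at once.
-/

namespace Pool.Agent.Lib.MP_3550b5_nt.B

open MvPolynomial

variable {n : ℕ} {wt : Fin n → ℕ}

/-- The real estimate for one prime. PROOF. As `one_prime_bound` in `UFinal.lean`:
`p ^ (2 r + 2) ≤ M ^ ((2 r + 2) / (4 (r + 1))) = M ^ (1 / 2)`, so
`c ^ r ≤ C V ^ r M ^ (-1/2) = (C ^ (1 / r) M ^ (-1 / (2 r)) V) ^ r`. -/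
lemma one_prime_bound_n {r : ℕ} (hr : 1 ≤ r) {C V M p c : ℕ} (hM : 1 ≤ M)
    (hp : (p : ℝ) ≤ (M : ℝ) ^ (1 / (4 * ((r : ℝ) + 1))))
    (hc : c ^ r * M ≤ C * V ^ r * p ^ (2 * r + 2)) :
    (c : ℝ) ≤ (C : ℝ) ^ ((1 : ℝ) / r) * (M : ℝ) ^ (-(1 / (2 * r : ℝ))) * (V : ℝ) := by
  have hMR : (1 : ℝ) ≤ M := by exact_mod_cast hM
  have hM0 : (0 : ℝ) < M := by linarith
  have hr0 : (0 : ℝ) < r := by exact_mod_cast (by omega : 0 < r)
  have k1 : (p : ℝ) ^ (2 * r + 2) ≤ (M : ℝ) ^ ((1 : ℝ) / 2) := by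
    calc (p : ℝ) ^ (2 * r + 2) ≤ ((M : ℝ) ^ (1 / (4 * ((r : ℝ) + 1)))) ^ (2 * r + 2) := by gcongr
      _ = (M : ℝ) ^ (1 / (4 * ((r : ℝ) + 1)) * ((2 * r + 2 : ℕ) : ℝ)) := by
          rw [← Real.rpow_natCast, ← Real.rpow_mul hM0.le]
      _ = _ := by
          congr 1
          push_cast
          field_simp
          norm_num
  have hcR : (c : ℝ) ^ r * M ≤ C * (V : ℝ) ^ r * (p : ℝ) ^ (2 * r + 2) := by
    exact_mod_cast hc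
  have k4 : (c : ℝ) ^ r * M ≤ C * (V : ℝ) ^ r * (M : ℝ) ^ ((1 : ℝ) / 2) :=
    hcR.trans (by gcongr)
  have k5 : (c : ℝ) ^ r ≤ ((C : ℝ) ^ ((1 : ℝ) / r) * (M : ℝ) ^ (-(1 / (2 * r : ℝ))) *
      (V : ℝ)) ^ r := by
    rw [mul_pow, mul_pow, ← Real.rpow_natCast ((C : ℝ) ^ ((1 : ℝ) / r)),
      ← Real.rpow_mul (by positivity), one_div_mul_cancel hr0.ne', Real.rpow_one,
      ← Real.rpow_natCast ((M : ℝ) ^ _), ← Real.rpow_mul hM0.le]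
    have e2 : -(1 / (2 * r : ℝ)) * r = 1 / 2 - 1 := by
      field_simp; norm_num
    rw [e2, Real.rpow_sub hM0, Real.rpow_one]
    have e3 : (C : ℝ) * ((M : ℝ) ^ ((1 : ℝ) / 2) / M) * (V : ℝ) ^ r =
        C * (V : ℝ) ^ r * (M : ℝ) ^ ((1 : ℝ) / 2) / M := by
      ring
    rw [e3, le_div_iff₀ hM0]
    exact k4
  exact (pow_le_pow_iff_left₀ (by positivity) (by positivity) (by omega)).mp k5

/-- The good members. PROOF. As `good_part` in `UFinal.lean`: `C` from `good_count_n`; `S p` = the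
members of `E` near at `p`; `E ⊆ ⋃ p ∈ Icc 1 ⌊M ^ η⌋₊, S p`, `η = 1 / (4 (r + 1))`; each
`(S p).card ≤ C' M ^ (-1 / (2 r)) N ^ Σ` by `good_count_n` (with `m = M`, `K = Nat.clog p M`,
`GoodInfN.mono`) and `one_prime_bound_n` (`V = N ^ Σ`); so
`E.card ≤ C' M ^ (η - 1 / (2 r)) N ^ Σ ≤ C' M ^ (-1 / (4 r)) N ^ Σ` as
`η ≤ 1 / (4 r)`, and `C' M ^ (-1 / (4 r)) ≤ δ` for `M ≥ M₀` (`tendsto_rpow_neg_atTop`,
`Filter.Eventually`). -/
theorem good_part_n (hwt : ∀ i, 1 ≤ wt i) {r : ℕ} (hr : 1 ≤ r) {d : ℕ}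
    {a b : MvPolynomial (Fin n) ℤ} (ha : a.IsWeightedHomogeneous wt (4 * d))
    (hb : b.IsWeightedHomogeneous wt (6 * d)) {w : Fin r → Fin r → ℕ}
    {X Y W : Fin r → Fin r → MvPolynomial (Fin n) ℤ}
    (hX : ∀ i j, i ≤ j → (X i j).IsWeightedHomogeneous wt (2 * (d + w i j)))
    (hY : ∀ i j, i ≤ j → (Y i j).IsWeightedHomogeneous wt (3 * (d + w i j)))
    (hW : ∀ i j, i ≤ j → (W i j).IsWeightedHomogeneous wt (w i j))
    (hdet : (heightMatrix d w).det ≠ 0) {R : ℤ} (hR : R ≠ 0) (h : ℕ) {δ : ℝ} (hδ : 0 < δ) :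
    ∃ M₀ : ℕ, 1 ≤ M₀ ∧ ∀ M N : ℕ, M₀ ≤ M → M ≤ N → ∀ v : (p : ℕ) → [Fact p.Prime] → ℚ_[p],
      ∀ E : Finset (Fin n → ℤ), (∀ z ∈ E, z ∈ wbox wt N ∧
      (∃ (p : ℕ) (_ : Fact p.Prime) (K : ℕ), 5 ≤ p ∧
        (p : ℝ) ≤ (M : ℝ) ^ (1 / (4 * ((r : ℝ) + 1))) ∧ M ≤ p ^ K ∧
        GoodInfN p (v p) K a b X Y W z) ∧
      (∀ i j, i ≤ j → ∀ D : ℤ, D ∣ 2 * eval z (Y i j) →
        D ∣ 3 * eval z (X i j) ^ 2 + eval z a * eval z (W i j) ^ 4 → D ∣ R) ∧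
      (∀ l : ℕ, l.Prime → (l : ℤ) ∣ R →
        ¬ (l : ℤ) ^ h ∣ 4 * (4 * eval z a ^ 3 + 27 * eval z b ^ 2))) →
      (E.card : ℝ) ≤ δ * (N : ℝ) ^ (∑ i, wt i) := by
  classical
  obtain ⟨C, hcount⟩ := good_count_n hwt hr ha hb hX hY hW hdet hR h
  have hr0 : (0 : ℝ) < r := by exact_mod_cast (by omega : 0 < r)
  set η : ℝ := 1 / (4 * ((r : ℝ) + 1)) with hη
  have hη0 : 0 < η := by positivity
  have hηr : η ≤ 1 / (4 * r) := by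
    rw [hη]
    apply one_div_le_one_div_of_le (by positivity)
    linarith
  set C' : ℝ := (C : ℝ) ^ ((1 : ℝ) / r) with hC'
  have hC'0 : 0 ≤ C' := by positivity
  -- the threshold
  obtain ⟨M₀, hM₀, hsmall⟩ : ∃ M₀ : ℕ, 1 ≤ M₀ ∧ ∀ M : ℕ, M₀ ≤ M →
      C' * (M : ℝ) ^ (-(1 / (4 * (r : ℝ)))) ≤ δ := by
    have h1 : Filter.Tendsto (fun M : ℕ => C' * (M : ℝ) ^ (-(1 / (4 * (r : ℝ)))))
        Filter.atTop (nhds (C' * 0)) :=
      ((tendsto_rpow_neg_atTop (by positivity : (0 : ℝ) < 1 / (4 * (r : ℝ)))).comp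
        tendsto_natCast_atTop_atTop).const_mul C'
    rw [mul_zero] at h1
    obtain ⟨M₁, hM₁⟩ := Filter.eventually_atTop.mp (h1.eventually (ge_mem_nhds hδ))
    exact ⟨max M₁ 1, le_max_right _ _, fun M hM => hM₁ M ((le_max_left _ _).trans hM)⟩
  refine ⟨M₀, hM₀, fun M N hM₀M hMN v E hE => ?_⟩
  have hM : 1 ≤ M := hM₀.trans hM₀M
  have hMR : (1 : ℝ) ≤ M := by exact_mod_cast hM
  have hM0 : (0 : ℝ) < M := by linarith
  set V : ℕ := N ^ (∑ i, wt i) with hV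
  set S : ℕ → Finset (Fin n → ℤ) := fun p => E.filter (fun z => ∃ (_ : Fact p.Prime) (K : ℕ),
    5 ≤ p ∧ (p : ℝ) ≤ (M : ℝ) ^ η ∧ M ≤ p ^ K ∧ GoodInfN p (v p) K a b X Y W z) with hSdef
  have hcov : E ⊆ (Finset.Icc 1 ⌊(M : ℝ) ^ η⌋₊).biUnion S := by
    intro z hz
    obtain ⟨-, ⟨p, hp, K, h5, hpM, hK, hgood⟩, -, -⟩ := hE z hz
    rw [Finset.mem_biUnion]
    refine ⟨p, Finset.mem_Icc.mpr ⟨by omega, Nat.le_floor hpM⟩, ?_⟩
    rw [hSdef]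
    exact Finset.mem_filter.mpr ⟨hz, hp, K, h5, hpM, hK, hgood⟩
  have hone : ∀ p : ℕ, ((S p).card : ℝ) ≤ C' * (M : ℝ) ^ (-(1 / (2 * r : ℝ))) * (V : ℝ) := by
    intro p
    rcases (S p).eq_empty_or_nonempty with hemp | ⟨z₀, hz₀⟩
    · rw [hemp, Finset.card_empty, Nat.cast_zero]; positivity
    · have hz₀' := hz₀
      rw [hSdef, Finset.mem_filter] at hz₀'
      obtain ⟨-, hp, K₀, h5, hpM, -, -⟩ := hz₀'
      refine one_prime_bound_n hr hM hpM (hcount p hp h5 (v p) (Nat.clog p M) N M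
        hM hMN (Nat.le_pow_clog hp.out.one_lt M) (S p) fun z hz => ?_)
      rw [hSdef, Finset.mem_filter] at hz
      obtain ⟨hzE, _, K, -, -, hK, hgood⟩ := hz
      obtain ⟨k1, -, k3, k4⟩ := hE z hzE
      exact ⟨k1, hgood.mono (Nat.clog_le_of_le_pow hK), k3, k4⟩
  have h1 : (E.card : ℝ) ≤ ∑ p ∈ Finset.Icc 1 ⌊(M : ℝ) ^ η⌋₊, ((S p).card : ℝ) := by
    exact_mod_cast (Finset.card_le_card hcov).trans Finset.card_biUnion_le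
  refine h1.trans ((Finset.sum_le_sum fun p _ => hone p).trans ?_)
  rw [Finset.sum_const, Nat.card_Icc, Nat.add_sub_cancel, nsmul_eq_mul]
  have hVcast : (V : ℝ) = (N : ℝ) ^ (∑ i, wt i) := by rw [hV]; push_cast; rfl
  calc (⌊(M : ℝ) ^ η⌋₊ : ℝ) * (C' * (M : ℝ) ^ (-(1 / (2 * r : ℝ))) * (V : ℝ))
      ≤ (M : ℝ) ^ η * (C' * (M : ℝ) ^ (-(1 / (2 * r : ℝ))) * (V : ℝ)) := by
        gcongr
        exact Nat.floor_le (by positivity)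
    _ = C' * (M : ℝ) ^ (η + -(1 / (2 * r : ℝ))) * (V : ℝ) := by
        rw [Real.rpow_add hM0]; ring
    _ ≤ C' * (M : ℝ) ^ (-(1 / (4 * (r : ℝ)))) * (V : ℝ) := by
        apply mul_le_mul_of_nonneg_right _ (by positivity)
        apply mul_le_mul_of_nonneg_left _ hC'0
        apply Real.rpow_le_rpow_of_exponent_le hMR
        have : 1 / (2 * r : ℝ) = 2 * (1 / (4 * r)) := by field_simp; norm_num
        rw [this]
        linarith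
    _ ≤ δ * (V : ℝ) := mul_le_mul_of_nonneg_right (hsmall M hM₀M) (by positivity)
    _ = _ := by rw [hVcast]

end Pool.Agent.Lib.MP_3550b5_nt.B
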