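import Mathlib
import Pool.Agent.Lib.MP_3550b5_nt.B.Dvd1

/-!
Values divisible by a high power of a small prime.
-/

namespace Pool.Agent.Lib.MP_3550b5_nt.B

open MvPolynomial

variable {n : ℕ} {wt : Fin n → ℕ}

/-- Values with a high power of a small prime. PROOF. For each of the primes `l ≤ L` take `A, κ, f`
from `card_dvd_w` and `j` with `A ≤ (δ / (L + 1)) * l ^ j` (`pow_unbounded_of_one_lt`), for
`N ≥ l ^ j` the set for `l` with exponent `κ + j f` has at most `δ / (L + 1) * N ^ Σ` elements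
(divide by `l ^ j > 0`). Take `h` and `N₀` at least as large as these for all `l ≤ L` (`choose`,
`Finset.exists_le` / `Finset.sup`); a larger exponent gives a smaller set (`pow_dvd_pow`). Union
over `l ∈ range (L + 1)` with `Finset.card_biUnion_le`. -/
lemma exists_level (hwt : ∀ i, 1 ≤ wt i) {F : MvPolynomial (Fin n) ℤ} (hF : F ≠ 0) (L : ℕ) {δ : ℝ}
    (hδ : 0 < δ) : ∃ h N₀ : ℕ, ∀ N : ℕ, N₀ ≤ N → ∀ E : Finset (Fin n → ℤ),
      (∀ z ∈ E, z ∈ wbox wt N ∧ ∃ l : ℕ, l.Prime ∧ l ≤ L ∧ (l : ℤ) ^ h ∣ eval z F) →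
      (E.card : ℝ) ≤ δ * (N : ℝ) ^ (∑ i, wt i) := by
  classical
  have key : ∀ l : ℕ, ∃ h N₀ : ℕ, l.Prime → ∀ N : ℕ, N₀ ≤ N →
      (((wbox wt N).filter (fun z => (l : ℤ) ^ h ∣ eval z F)).card : ℝ) ≤
        δ / (L + 1) * (N : ℝ) ^ (∑ i, wt i) := by
    intro l
    by_cases hl : l.Prime
    · obtain ⟨A, κ, f, hA⟩ := card_dvd_w hl n wt hwt F hF
      have hδ' : 0 < δ / (L + 1) := by positivity
      obtain ⟨j, hj⟩ := pow_unbounded_of_one_lt ((A : ℝ) / (δ / (L + 1))) (y := (l : ℝ))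
        (by exact_mod_cast hl.one_lt)
      refine ⟨κ + j * f, l ^ j, fun _ N hN => ?_⟩
      have hlj : (0 : ℝ) < (l : ℝ) ^ j := pow_pos (by exact_mod_cast hl.pos) j
      have h1 : (((wbox wt N).filter
          (fun z => (l : ℤ) ^ (κ + j * f) ∣ eval z F)).card : ℝ) * (l : ℝ) ^ j ≤
            A * (N : ℝ) ^ (∑ i, wt i) := by exact_mod_cast hA j N hN
      have h2 : (A : ℝ) ≤ δ / (L + 1) * (l : ℝ) ^ j := by
        rw [div_lt_iff₀ hδ'] at hj
        linarith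
      have h3 : (0 : ℝ) ≤ (N : ℝ) ^ (∑ i, wt i) := by positivity
      refine le_of_mul_le_mul_right (h1.trans ?_) hlj
      calc (A : ℝ) * (N : ℝ) ^ (∑ i, wt i)
          ≤ (δ / (L + 1) * (l : ℝ) ^ j) * (N : ℝ) ^ (∑ i, wt i) :=
            mul_le_mul_of_nonneg_right h2 h3
        _ = _ := by ring
    · exact ⟨0, 0, fun h => absurd h hl⟩
  choose H N₀ hH using key
  refine ⟨(Finset.range (L + 1)).sup H, (Finset.range (L + 1)).sup N₀, fun N hN E hE => ?_⟩
  have hsub : E ⊆ ((Finset.range (L + 1)).filter Nat.Prime).biUnion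
      (fun l => (wbox wt N).filter (fun z => (l : ℤ) ^ (H l) ∣ eval z F)) := by
    intro z hz
    obtain ⟨hzb, l, hl, hlL, hd⟩ := hE z hz
    have hmem : l ∈ Finset.range (L + 1) := by
      rw [Finset.mem_range]
      omega
    rw [Finset.mem_biUnion]
    refine ⟨l, Finset.mem_filter.mpr ⟨hmem, hl⟩, Finset.mem_filter.mpr ⟨hzb, ?_⟩⟩
    exact (pow_dvd_pow _ (Finset.le_sup (f := H) hmem)).trans hd
  have h1 : E.card ≤ ∑ l ∈ (Finset.range (L + 1)).filter Nat.Prime,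
      ((wbox wt N).filter (fun z => (l : ℤ) ^ (H l) ∣ eval z F)).card :=
    (Finset.card_le_card hsub).trans Finset.card_biUnion_le
  have h2 : (E.card : ℝ) ≤ ∑ l ∈ (Finset.range (L + 1)).filter Nat.Prime,
      (((wbox wt N).filter (fun z => (l : ℤ) ^ (H l) ∣ eval z F)).card : ℝ) := by
    exact_mod_cast h1
  have h3 : (0 : ℝ) ≤ δ / (L + 1) * (N : ℝ) ^ (∑ i, wt i) := by positivity
  have h4 : ∀ l ∈ (Finset.range (L + 1)).filter Nat.Prime,
      (((wbox wt N).filter (fun z => (l : ℤ) ^ (H l) ∣ eval z F)).card : ℝ) ≤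
        δ / (L + 1) * (N : ℝ) ^ (∑ i, wt i) := by
    intro l hl
    rw [Finset.mem_filter] at hl
    exact hH l hl.2 N ((Finset.le_sup (f := N₀) hl.1).trans hN)
  have h5 : (((Finset.range (L + 1)).filter Nat.Prime).card : ℝ) ≤ (L : ℝ) + 1 := by
    have h6 := Finset.card_filter_le (Finset.range (L + 1)) Nat.Prime
    rw [Finset.card_range] at h6
    exact_mod_cast h6
  have hL0 : (0 : ℝ) < (L : ℝ) + 1 := by positivity
  calc (E.card : ℝ) ≤ ∑ l ∈ (Finset.range (L + 1)).filter Nat.Prime,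
      (((wbox wt N).filter (fun z => (l : ℤ) ^ (H l) ∣ eval z F)).card : ℝ) := h2
    _ ≤ ∑ l ∈ (Finset.range (L + 1)).filter Nat.Prime,
        δ / (L + 1) * (N : ℝ) ^ (∑ i, wt i) := Finset.sum_le_sum h4
    _ = (((Finset.range (L + 1)).filter Nat.Prime).card : ℝ) *
        (δ / (L + 1) * (N : ℝ) ^ (∑ i, wt i)) := by
        rw [Finset.sum_const, nsmul_eq_mul]
    _ ≤ ((L : ℝ) + 1) * (δ / (L + 1) * (N : ℝ) ^ (∑ i, wt i)) :=
        mul_le_mul_of_nonneg_right h5 h3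
    _ = δ * (N : ℝ) ^ (∑ i, wt i) := by
        field_simp

end Pool.Agent.Lib.MP_3550b5_nt.B
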