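import Mathlib
import Pool.Agent.Lib.MP_3550b5_nt.UPs
import Pool.Agent.Lib.MP_3550b5_nt.B.Box

/-!
Negligible sets.
-/

namespace Pool.Agent.Lib.MP_3550b5_nt.B

open MvPolynomial

/-- The sets `S N` of parameter vectors have density zero in the weighted boxes. -/
def Negl {n : ℕ} (wt : Fin n → ℕ) (S : ℕ → Finset (Fin n → ℤ)) : Prop :=
  ∀ δ : ℝ, 0 < δ → ∃ N₀ : ℕ, ∀ N : ℕ, N₀ ≤ N →
    ((S N).card : ℝ) ≤ δ * (N : ℝ) ^ (∑ i, wt i)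

variable {n : ℕ} {wt : Fin n → ℕ}

lemma Negl.mono {S T : ℕ → Finset (Fin n → ℤ)} (h : Negl wt S)
    (hST : ∀ N : ℕ, (T N).card ≤ (S N).card) : Negl wt T := by
  intro δ hδ
  obtain ⟨N₀, h⟩ := h δ hδ
  refine ⟨N₀, fun N hN => le_trans ?_ (h N hN)⟩
  exact_mod_cast hST N

lemma Negl.empty : Negl wt (fun _ => ∅) := by
  intro δ hδ
  refine ⟨0, fun N _ => ?_⟩
  rw [Finset.card_empty, Nat.cast_zero]
  positivity

lemma Negl.union {S T : ℕ → Finset (Fin n → ℤ)} (h : Negl wt S) (h' : Negl wt T) :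
    Negl wt (fun N => S N ∪ T N) := by
  intro δ hδ
  obtain ⟨N₀, h⟩ := h (δ / 2) (by linarith)
  obtain ⟨N₁, h'⟩ := h' (δ / 2) (by linarith)
  refine ⟨max N₀ N₁, fun N hN => ?_⟩
  have h1 : (((S N ∪ T N).card : ℕ) : ℝ) ≤ ((S N).card : ℝ) + ((T N).card : ℝ) := by
    exact_mod_cast Finset.card_union_le _ _
  calc _ ≤ _ := h1
    _ ≤ _ := add_le_add (h N ((le_max_left _ _).trans hN)) (h' N ((le_max_right _ _).trans hN))
    _ = _ := by ring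

lemma Negl.biUnion {ι : Type*} (s : Finset ι) {S : ι → ℕ → Finset (Fin n → ℤ)}
    (h : ∀ i ∈ s, Negl wt (S i)) : Negl wt (fun N => s.biUnion (fun i => S i N)) := by
  classical
  induction s using Finset.induction_on with
  | empty =>
    simp only [Finset.biUnion_empty]
    exact Negl.empty
  | insert i s hi ih =>
    simp only [Finset.biUnion_insert]
    exact (h i (Finset.mem_insert_self _ _)).union
      (ih fun j hj => h j (Finset.mem_insert_of_mem hj))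

/-- PROOF. `log_pow_le` (in `UPs.lean`, see its use in `psav_torsion` in `UFinal.lean`) with
exponent `1 / 2`: `card ≤ C C₁ N ^ (1/2) N ^ Σ / N ≤ δ N ^ Σ` as soon as `C C₁ ≤ δ N ^ (1/2)`, which
holds for `N ≥ N₀` (`N ^ (1/2) → ∞`: `N₀ = ⌈(C C₁ / δ) ^ 2⌉₊ + 1`). -/
lemma Negl.of_mul {S : ℕ → Finset (Fin n → ℤ)} (C e : ℕ)
    (h : ∀ N : ℕ, 1 ≤ N → (S N).card * N ≤ C * (Nat.log 2 N + 1) ^ e * N ^ (∑ i, wt i)) :
    Negl wt S := by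
  intro δ hδ
  obtain ⟨C₁, hC₁, hL⟩ := log_pow_le e (δ := 1 / 2) (by norm_num)
  refine ⟨⌈((C : ℝ) * C₁ / δ) ^ 2⌉₊ + 1, fun N hN => ?_⟩
  have hN1 : 1 ≤ N := by omega
  have hNR : (1 : ℝ) ≤ N := by exact_mod_cast hN1
  have hN0 : (0 : ℝ) < N := by linarith
  have hr0 : 0 < (N : ℝ) ^ ((1 : ℝ) / 2) := Real.rpow_pos_of_pos hN0 _
  have hrr : (N : ℝ) ^ ((1 : ℝ) / 2) * (N : ℝ) ^ ((1 : ℝ) / 2) = N := by
    rw [← Real.rpow_add hN0]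
    norm_num
  have h1 : (C : ℝ) * C₁ ≤ δ * (N : ℝ) ^ ((1 : ℝ) / 2) := by
    have h2 : ((C : ℝ) * C₁ / δ) ^ 2 ≤ ((N : ℝ) ^ ((1 : ℝ) / 2)) ^ 2 := by
      rw [sq ((N : ℝ) ^ ((1 : ℝ) / 2)), hrr]
      refine (Nat.le_ceil _).trans ?_
      exact_mod_cast (by omega : ⌈((C : ℝ) * C₁ / δ) ^ 2⌉₊ ≤ N)
    have h3 : (C : ℝ) * C₁ / δ ≤ (N : ℝ) ^ ((1 : ℝ) / 2) :=
      (pow_le_pow_iff_left₀ (by positivity) hr0.le (by norm_num)).mp h2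
    rw [div_le_iff₀ hδ] at h3
    linarith
  have h4 : ((S N).card : ℝ) * N ≤
      C * ((Nat.log 2 N : ℝ) + 1) ^ e * (N : ℝ) ^ (∑ i, wt i) := by
    exact_mod_cast h N hN1
  have hP : (0 : ℝ) ≤ (N : ℝ) ^ (∑ i, wt i) := by positivity
  have h5 : ((S N).card : ℝ) * N ≤ (δ * (N : ℝ) ^ (∑ i, wt i)) * N := by
    calc ((S N).card : ℝ) * N
        ≤ C * ((Nat.log 2 N : ℝ) + 1) ^ e * (N : ℝ) ^ (∑ i, wt i) := h4
      _ ≤ C * (C₁ * (N : ℝ) ^ ((1 : ℝ) / 2)) * (N : ℝ) ^ (∑ i, wt i) := by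
          have := hL N hN1
          gcongr
      _ = (C * C₁) * ((N : ℝ) ^ ((1 : ℝ) / 2) * (N : ℝ) ^ (∑ i, wt i)) := by ring
      _ ≤ (δ * (N : ℝ) ^ ((1 : ℝ) / 2)) *
          ((N : ℝ) ^ ((1 : ℝ) / 2) * (N : ℝ) ^ (∑ i, wt i)) := by
          gcongr
      _ = δ * (N : ℝ) ^ (∑ i, wt i) * ((N : ℝ) ^ ((1 : ℝ) / 2) * (N : ℝ) ^ ((1 : ℝ) / 2)) := by
          ring
      _ = _ := by rw [hrr]
  exact le_of_mul_le_mul_right h5 hN0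

lemma Negl.zeros (hwt : ∀ i, 1 ≤ wt i) {F : MvPolynomial (Fin n) ℤ} (hF : F ≠ 0) :
    Negl wt (fun N => (wbox wt N).filter (fun z => eval z F = 0)) := by
  refine Negl.of_mul (3 ^ n * (∑ i, F.degreeOf i)) 0 fun N hN => ?_
  rw [pow_zero, mul_one]
  exact card_zeros_w hwt hF hN

end Pool.Agent.Lib.MP_3550b5_nt.B
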