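import Mathlib
import Pool.Agent.Lib.MP_3550b5_nt.UFinal
import Pool.Agent.Lib.MP_3550b5_nt.B.Negl

/-!
Values composed of the primes of a fixed number.
-/

namespace Pool.Agent.Lib.MP_3550b5_nt.B

open MvPolynomial

variable {n : ℕ} {wt : Fin n → ℕ}

/-- Values composed of the primes of a fixed number. PROOF. Let `k` be the number of prime divisors
of `R`, `D = ∑ i, Y.degreeOf i`, and `|Y(z)| ≤ C N ^ e` on the boxes (`exists_growth_w`). The
zeros of `Y` are few (`card_zeros_w`). Otherwise `g = |Y(z)|` is composed of the primes of `R`, so by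
`card_smooth_le` (in `SCount.lean`) it takes at most
`(Nat.log 2 (C * N ^ e) + 1) ^ k ≤ ((C + e + 2) * (Nat.log 2 N + 1)) ^ k` values (`log_bound_one` in
`UFinal.lean`; or copy its proof). For every integer `v`, `Y - C v ≠ 0`: otherwise `Y = C v` is
weighted homogeneous of degree `m > 0` and of degree `0`
(`MvPolynomial.isWeightedHomogeneous_C`, `MvPolynomial.IsWeightedHomogeneous.inj_right`), so `Y = 0`.
`degreeOf i (Y - C v) ≤ degreeOf i Y` (`MvPolynomial.degreeOf_sub_le`, `degreeOf_C`). So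
`#{z : Y(z) = v} * N ≤ 3 ^ n * D * N ^ Σ` (`card_zeros_w`). Sum over `v = ± g`
(`Finset.card_biUnion_le` or `Finset.card_le_mul_card_image`). -/
lemma Negl.smooth (hwt : ∀ i, 1 ≤ wt i) {Y : MvPolynomial (Fin n) ℤ} {m : ℕ}
    (hY : Y.IsWeightedHomogeneous wt m) (hm : 0 < m) (hY0 : Y ≠ 0) {R : ℤ} (hR : R ≠ 0)
    {S : ℕ → Finset (Fin n → ℤ)} (hS : ∀ N : ℕ, ∀ z ∈ S N, z ∈ wbox wt N ∧
      ∀ l : ℕ, l.Prime → (l : ℤ) ∣ eval z Y → (l : ℤ) ∣ R) : Negl wt S := by
  classical
  obtain ⟨k, hk⟩ : ∃ k, k = R.natAbs.primeFactors.card := ⟨_, rfl⟩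
  obtain ⟨D, hD⟩ : ∃ D, D = ∑ i, Y.degreeOf i := ⟨_, rfl⟩
  obtain ⟨B, e, hC⟩ := exists_growth_w wt Y
  refine Negl.of_mul (3 * (B + e + 2) ^ k * (3 ^ n * D)) k fun N hN => ?_
  -- the values
  set T : Finset ℕ := (Finset.Icc 1 (B * N ^ e)).filter
    (fun g => ∀ l : ℕ, l.Prime → l ∣ g → l ∈ R.natAbs.primeFactors) with hT
  have hTc : T.card ≤ (Nat.log 2 (B * N ^ e) + 1) ^ k := by
    rw [hk]
    apply card_smooth_le
    intro g hg
    rw [hT, Finset.mem_filter, Finset.mem_Icc] at hg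
    exact ⟨by omega, hg.1.2, hg.2⟩
  set V : Finset ℤ := (T.image (fun g : ℕ => (g : ℤ)) ∪ T.image (fun g : ℕ => -(g : ℤ))) ∪ {0}
    with hV
  have hVc : V.card ≤ 2 * T.card + 1 := by
    rw [hV]
    refine (Finset.card_union_le _ _).trans ?_
    rw [Finset.card_singleton]
    have := (Finset.card_union_le (T.image (fun g : ℕ => (g : ℤ)))
      (T.image (fun g : ℕ => -(g : ℤ))))
    have h1 := Finset.card_image_le (s := T) (f := fun g : ℕ => (g : ℤ))
    have h2 := Finset.card_image_le (s := T) (f := fun g : ℕ => -(g : ℤ))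
    omega
  have hmaps : ∀ z ∈ S N, eval z Y ∈ V := by
    intro z hz
    obtain ⟨hzb, hR'⟩ := hS N z hz
    rw [hV, Finset.mem_union, Finset.mem_union, Finset.mem_singleton]
    rcases eq_or_ne (eval z Y) 0 with h0 | h0
    · exact Or.inr h0
    · left
      have hbd := hC N hN z hzb
      have hmem : (eval z Y).natAbs ∈ T := by
        rw [hT, Finset.mem_filter, Finset.mem_Icc]
        refine ⟨⟨Int.natAbs_pos.mpr h0, ?_⟩, ?_⟩
        · have : ((eval z Y).natAbs : ℤ) ≤ B * (N : ℤ) ^ e := by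
            rw [Int.natCast_natAbs]; exact hbd
          exact_mod_cast this
        · intro l hl hd
          rw [Nat.mem_primeFactors]
          exact ⟨hl, Int.natCast_dvd.mp (hR' l hl (Int.natCast_dvd.mpr hd)),
            Int.natAbs_ne_zero.mpr hR⟩
      rcases Int.natAbs_eq (eval z Y) with h1 | h1
      · left
        rw [Finset.mem_image]
        exact ⟨_, hmem, h1.symm⟩
      · right
        rw [Finset.mem_image]
        exact ⟨_, hmem, h1.symm⟩
  -- the fibres
  have hfib : ∀ v : ℤ, ((S N).filter (fun z => eval z Y = v)).card * N ≤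
      3 ^ n * D * N ^ (∑ i, wt i) := by
    intro v
    have hne : Y - C v ≠ 0 := by
      intro h0
      have h1 : Y = C v := sub_eq_zero.mp h0
      have h2 : Y.IsWeightedHomogeneous wt 0 := by
        rw [h1]
        exact isWeightedHomogeneous_C wt v
      have h3 := IsWeightedHomogeneous.inj_right hY0 hY h2
      omega
    have h1 := card_zeros_w hwt hne hN
    have h2 : ((S N).filter (fun z => eval z Y = v)).card ≤
        ((wbox wt N).filter (fun z => eval z (Y - C v) = 0)).card := by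
      apply Finset.card_le_card
      intro z hz
      rw [Finset.mem_filter] at hz ⊢
      refine ⟨(hS N z hz.1).1, ?_⟩
      rw [map_sub, eval_C, hz.2, sub_self]
    have h3 : (∑ i, (Y - C v).degreeOf i) ≤ D := by
      rw [hD]
      apply Finset.sum_le_sum
      intro i _
      refine (degreeOf_sub_le i Y (C v)).trans ?_
      rw [degreeOf_C]
      simp
    calc ((S N).filter (fun z => eval z Y = v)).card * N
        ≤ ((wbox wt N).filter (fun z => eval z (Y - C v) = 0)).card * N :=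
          Nat.mul_le_mul_right _ h2
      _ ≤ 3 ^ n * (∑ i, (Y - C v).degreeOf i) * N ^ (∑ i, wt i) := h1
      _ ≤ 3 ^ n * D * N ^ (∑ i, wt i) :=
          Nat.mul_le_mul_right _ (Nat.mul_le_mul_left _ h3)
  have hsum : (S N).card * N ≤ V.card * (3 ^ n * D * N ^ (∑ i, wt i)) := by
    rw [Finset.card_eq_sum_card_fiberwise (f := fun z => eval z Y) (t := V)
      (fun z hz => hmaps z hz), Finset.sum_mul, ← smul_eq_mul, ← Finset.sum_const]
    exact Finset.sum_le_sum fun v _ => hfib v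
  have hV3 : V.card ≤ 3 * ((B + e + 2) * (Nat.log 2 N + 1)) ^ k := by
    have h4 : (Nat.log 2 (B * N ^ e) + 1) ^ k ≤ ((B + e + 2) * (Nat.log 2 N + 1)) ^ k :=
      Nat.pow_le_pow_left (log_bound_one B e N) k
    have h5 : 1 ≤ ((B + e + 2) * (Nat.log 2 N + 1)) ^ k :=
      Nat.one_le_pow _ _ (Nat.mul_pos (by omega) (by omega))
    omega
  calc (S N).card * N ≤ V.card * (3 ^ n * D * N ^ (∑ i, wt i)) := hsum
    _ ≤ (3 * ((B + e + 2) * (Nat.log 2 N + 1)) ^ k) * (3 ^ n * D * N ^ (∑ i, wt i)) :=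
        Nat.mul_le_mul_right _ hV3
    _ = 3 * (B + e + 2) ^ k * (3 ^ n * D) * (Nat.log 2 N + 1) ^ k * N ^ (∑ i, wt i) := by
        rw [mul_pow]; ring

end Pool.Agent.Lib.MP_3550b5_nt.B
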