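import Mathlib
import Pool.Agent.Lib.MP_3550b5_nt.B.Eke3
import Pool.Agent.Lib.MP_3550b5_nt.B.Level
import Pool.Agent.Lib.MP_3550b5_nt.B.Smooth
import Pool.Agent.Lib.MP_3550b5_nt.B.Good

/-!
The theorem for narrow points.
-/

namespace Pool.Agent.Lib.MP_3550b5_nt.B

open MvPolynomial

variable {n : ℕ} {wt : Fin n → ℕ}

/-- The product of the `h`-th powers of the primes `l ≤ L`. -/
def smallProd (L h : ℕ) : ℤ := ∏ l ∈ (Finset.range (L + 1)).filter Nat.Prime, ((l : ℤ) ^ h)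

lemma smallProd_ne (L h : ℕ) : smallProd L h ≠ 0 := by
  rw [smallProd]
  refine Finset.prod_ne_zero_iff.mpr fun l hl => pow_ne_zero _ ?_
  exact_mod_cast (Finset.mem_filter.mp hl).2.ne_zero

lemma le_of_dvd_smallProd {L h l : ℕ} (hl : l.Prime) (hd : (l : ℤ) ∣ smallProd L h) : l ≤ L := by
  have hlZ : Prime (l : ℤ) := Nat.prime_iff_prime_int.mp hl
  rw [smallProd] at hd
  obtain ⟨q, hq, hd⟩ := (hlZ.dvd_finset_prod_iff _).mp hd
  obtain ⟨hq1, hq2⟩ := Finset.mem_filter.mp hq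
  have h1 : (l : ℤ) ∣ q := hlZ.dvd_of_dvd_pow hd
  have h2 : l ∣ q := by exact_mod_cast h1
  have h3 := (Nat.prime_dvd_prime_iff_eq hl hq2).mp h2
  rw [h3]
  have := Finset.mem_range.mp hq1
  omega

/-- Numbers composed of small primes with small exponents divide the product. -/
lemma dvd_smallProd {L h : ℕ} {D : ℤ} (hD : D ≠ 0)
    (h1 : ∀ l : ℕ, l.Prime → (l : ℤ) ∣ D → l ≤ L ∧ ¬ (l : ℤ) ^ h ∣ D) : D ∣ smallProd L h := by
  have hD' : D.natAbs ≠ 0 := Int.natAbs_ne_zero.mpr hD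
  rw [← Int.natAbs_dvd]
  have h2 : D.natAbs ∣ ∏ l ∈ (Finset.range (L + 1)).filter Nat.Prime, l ^ h := by
    conv_lhs => rw [← Nat.factorization_prod_pow_eq_self hD']
    rw [Finsupp.prod]
    have hsub : D.natAbs.factorization.support ⊆ (Finset.range (L + 1)).filter Nat.Prime := by
      intro l hl
      rw [Nat.support_factorization, Nat.mem_primeFactors] at hl
      rw [Finset.mem_filter, Finset.mem_range]
      have := (h1 l hl.1 (Int.natCast_dvd.mpr hl.2.1)).1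
      exact ⟨by omega, hl.1⟩
    refine (Finset.prod_dvd_prod_of_dvd _ _ fun l hl => ?_).trans
      (Finset.prod_dvd_prod_of_subset _ _ _ hsub)
    apply pow_dvd_pow
    rw [Nat.support_factorization, Nat.mem_primeFactors] at hl
    by_contra hlt
    push Not at hlt
    apply (h1 l hl.1 (Int.natCast_dvd.mpr hl.2.1)).2
    have h3 : l ^ h ∣ D.natAbs := (pow_dvd_pow l hlt.le).trans (Nat.ordProj_dvd _ _)
    have h4 : ((l ^ h : ℕ) : ℤ) ∣ D := Int.natCast_dvd.mpr h3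
    exact_mod_cast h4
  rw [smallProd]
  exact_mod_cast h2

lemma Small.empty : Small wt (fun _ _ => ∅) :=
  ⟨0, le_rfl, fun L N _ _ => by simp⟩

lemma Small.biUnion {ι : Type*} (s : Finset ι) {S : ι → ℕ → ℕ → Finset (Fin n → ℤ)}
    (h : ∀ i ∈ s, Small wt (S i)) : Small wt (fun L N => s.biUnion (fun i => S i L N)) := by
  classical
  induction s using Finset.induction_on with
  | empty =>
    simp only [Finset.biUnion_empty]
    exact Small.empty
  | insert i s hi ih =>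
    simp only [Finset.biUnion_insert]
    exact (h i (Finset.mem_insert_self _ _)).union
      (ih fun j hj => h j (Finset.mem_insert_of_mem hj))

/-- The theorem for narrow points. -/
theorem members_narrow (hwt : ∀ i, 1 ≤ wt i) {r : ℕ} (hr : 1 ≤ r) {d : ℕ} (hd : 1 ≤ d)
    {a b : MvPolynomial (Fin n) ℤ} (ha : a.IsWeightedHomogeneous wt (4 * d))
    (hb : b.IsWeightedHomogeneous wt (6 * d)) (hΔ : 4 * a ^ 3 + 27 * b ^ 2 ≠ 0)
    {w : Fin r → Fin r → ℕ} {X Y W : Fin r → Fin r → MvPolynomial (Fin n) ℤ}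
    (hX : ∀ i j, i ≤ j → (X i j).IsWeightedHomogeneous wt (2 * (d + w i j)))
    (hY : ∀ i j, i ≤ j → (Y i j).IsWeightedHomogeneous wt (3 * (d + w i j)))
    (hW : ∀ i j, i ≤ j → (W i j).IsWeightedHomogeneous wt (w i j))
    (hY0 : ∀ i j, i ≤ j → Y i j ≠ 0) (hW0 : ∀ i j, i ≤ j → W i j ≠ 0)
    (hEq : ∀ i j, i ≤ j → Y i j ^ 2 = X i j ^ 3 + a * X i j * W i j ^ 4 + b * W i j ^ 6)
    (hcop : ∀ i j, i ≤ j → Cop (2 * Y i j) (3 * X i j ^ 2 + a * W i j ^ 4))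
    (hdet : (heightMatrix d w).det ≠ 0)
    {H : Fin r → Fin r → MvPolynomial (Fin n) ℤ} (hH0 : ∀ i j, i < j → H i j ≠ 0)
    (hH : ∀ i j, i < j → ∀ z : Fin n → ℤ, eval z (H i j) ≠ 0 →
      ∀ (k1 : (curve (eval z a) (eval z b)).Nonsingular
          (((eval z (X i i) : ℤ) : ℚ) / ((eval z (W i i) : ℤ) : ℚ) ^ 2)
          (((eval z (Y i i) : ℤ) : ℚ) / ((eval z (W i i) : ℤ) : ℚ) ^ 3))
        (k2 : (curve (eval z a) (eval z b)).Nonsingular
          (((eval z (X j j) : ℤ) : ℚ) / ((eval z (W j j) : ℤ) : ℚ) ^ 2)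
          (((eval z (Y j j) : ℤ) : ℚ) / ((eval z (W j j) : ℤ) : ℚ) ^ 3))
        (k3 : (curve (eval z a) (eval z b)).Nonsingular
          (((eval z (X i j) : ℤ) : ℚ) / ((eval z (W i j) : ℤ) : ℚ) ^ 2)
          (((eval z (Y i j) : ℤ) : ℚ) / ((eval z (W i j) : ℤ) : ℚ) ^ 3)),
        (.some _ _ k1 : (curve (eval z a) (eval z b)).Point) - .some _ _ k2 = .some _ _ k3)
    {ε : ℝ} (hε : 0 < ε) :
    ∃ M₀ : ℕ, 1 ≤ M₀ ∧ ∀ M N : ℕ, M₀ ≤ M → M ≤ N → ∀ v : (p : ℕ) → [Fact p.Prime] → ℚ_[p],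
      ∀ E : Finset (Fin n → ℤ), (∀ z ∈ E, z ∈ wbox wt N ∧
        ∃ (p : ℕ) (_ : Fact p.Prime) (K : ℕ), 5 ≤ p ∧
          (p : ℝ) ≤ (M : ℝ) ^ (1 / (4 * ((r : ℝ) + 1))) ∧ M ≤ p ^ K ∧
          MemberNear p (v p) K a b (fun i => X i i) (fun i => Y i i) (fun i => W i i) z) →
      (E.card : ℝ) ≤ ε * (N : ℝ) ^ (∑ i, wt i) := by
  classical
  set δ : ℝ := ε / 6 with hδ
  have hδ0 : 0 < δ := by rw [hδ]; linarith
  set pairs : Finset (Fin r × Fin r) := Finset.univ.filter (fun ij => ij.1 ≤ ij.2) with hpairs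
  have hmp : ∀ {i j : Fin r}, i ≤ j → (i, j) ∈ pairs := fun {i j} hij => by
    rw [hpairs, Finset.mem_filter]; exact ⟨Finset.mem_univ _, hij⟩
  have hpm : ∀ {ij : Fin r × Fin r}, ij ∈ pairs → ij.1 ≤ ij.2 := fun {ij} h =>
    (Finset.mem_filter.mp h).2
  -- Ekedahl's sieve
  obtain ⟨CE, hCE, hEke⟩ := Small.biUnion (wt := wt) pairs (S := fun ij L N =>
    bad wt L N (2 * Y ij.1 ij.2) (3 * X ij.1 ij.2 ^ 2 + a * W ij.1 ij.2 ^ 4)) fun ij hij =>
      ekedahl n wt hwt _ _ (hcop _ _ (hpm hij))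
        (Or.inl (mul_ne_zero two_ne_zero (hY0 _ _ (hpm hij))))
  obtain ⟨L, hL2, hL⟩ : ∃ L : ℕ, 2 ≤ L ∧ CE / L ≤ δ := by
    obtain ⟨L, hL⟩ := exists_nat_gt (CE / δ)
    refine ⟨max L 2, le_max_right _ _, ?_⟩
    have h1 : (0 : ℝ) < (max L 2 : ℕ) := by positivity
    rw [div_le_iff₀ h1]
    have h2 : CE / δ ≤ (max L 2 : ℕ) := hL.le.trans (by exact_mod_cast le_max_left _ _)
    rw [div_le_iff₀ hδ0] at h2
    linarith
  obtain ⟨N₁, hN₁1, hN₁⟩ : ∃ N₁ : ℕ, 1 ≤ N₁ ∧ ∀ N : ℕ, N₁ ≤ N → CE / N ≤ δ := by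
    obtain ⟨N₁, hN₁⟩ := exists_nat_gt (CE / δ)
    refine ⟨N₁ + 1, by omega, fun N hN => ?_⟩
    have h1 : (0 : ℝ) < (N : ℕ) := by exact_mod_cast (by omega : 0 < N)
    rw [div_le_iff₀ h1]
    have h2 : CE / δ ≤ (N : ℕ) := hN₁.le.trans (by exact_mod_cast (by omega : N₁ ≤ N))
    rw [div_le_iff₀ hδ0] at h2
    linarith
  -- high powers of small primes
  set F : MvPolynomial (Fin n) ℤ := (4 * (4 * a ^ 3 + 27 * b ^ 2)) *
    ∏ ij ∈ pairs, (2 * Y ij.1 ij.2) with hF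
  have hF0 : F ≠ 0 := by
    rw [hF]
    refine mul_ne_zero (mul_ne_zero (by norm_num) hΔ) (Finset.prod_ne_zero_iff.mpr fun ij hij => ?_)
    exact mul_ne_zero two_ne_zero (hY0 _ _ (hpm hij))
  obtain ⟨h, N₂, hlev⟩ := exists_level hwt hF0 L hδ0
  set R := smallProd L h with hR
  have hR0 : R ≠ 0 := smallProd_ne L h
  -- zeros
  set Z : MvPolynomial (Fin n) ℤ := ∏ ij ∈ pairs, (W ij.1 ij.2 *
    (if ij.1 < ij.2 then H ij.1 ij.2 else 1)) with hZ
  have hZ0 : Z ≠ 0 := by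
    rw [hZ]
    refine Finset.prod_ne_zero_iff.mpr fun ij hij => mul_ne_zero (hW0 _ _ (hpm hij)) ?_
    split_ifs with h1
    · exact hH0 _ _ h1
    · exact one_ne_zero
  obtain ⟨N₃, hzero⟩ := Negl.zeros hwt hZ0 δ hδ0
  -- torsion
  obtain ⟨N₄, htors⟩ := Negl.biUnion (wt := wt) pairs (S := fun ij N => (wbox wt N).filter
    (fun z => ∀ l : ℕ, l.Prime → (l : ℤ) ∣ eval z (Y ij.1 ij.2) → (l : ℤ) ∣ R)) (fun ij hij => by
      refine Negl.smooth hwt (hY _ _ (hpm hij)) (by omega) (hY0 _ _ (hpm hij)) hR0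
        fun N z hz => ?_
      rw [Finset.mem_filter] at hz
      exact hz) δ hδ0
  -- good members
  obtain ⟨M₁, hM₁, hgood⟩ := good_part_n hwt hr ha hb hX hY hW hdet hR0 h hδ0
  refine ⟨max (max M₁ N₁) (max N₂ (max N₃ N₄)), ?_, fun M N hM hMN v E hE => ?_⟩
  · exact hM₁.trans ((le_max_left _ _).trans (le_max_left _ _))
  have hMM₁ : M₁ ≤ M := ((le_max_left _ _).trans (le_max_left _ _)).trans hM
  have hNN₁ : N₁ ≤ N := ((le_max_right _ _).trans (le_max_left _ _)).trans (hM.trans hMN)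
  have hNN₂ : N₂ ≤ N := ((le_max_left _ _).trans (le_max_right _ _)).trans (hM.trans hMN)
  have hNN₃ : N₃ ≤ N := (((le_max_left _ _).trans (le_max_right _ _)).trans
    (le_max_right _ _)).trans (hM.trans hMN)
  have hNN₄ : N₄ ≤ N := (((le_max_right _ _).trans (le_max_right _ _)).trans
    (le_max_right _ _)).trans (hM.trans hMN)
  set E1 := (wbox wt N).filter (fun z => eval z Z = 0) with hE1
  set E2 := pairs.biUnion (fun ij =>
    bad wt L N (2 * Y ij.1 ij.2) (3 * X ij.1 ij.2 ^ 2 + a * W ij.1 ij.2 ^ 4)) with hE2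
  set E3 := (wbox wt N).filter (fun z => ∃ l : ℕ, l.Prime ∧ l ≤ L ∧ (l : ℤ) ^ h ∣ eval z F) with hE3
  set E4 := pairs.biUnion (fun ij => (wbox wt N).filter
    (fun z => ∀ l : ℕ, l.Prime → (l : ℤ) ∣ eval z (Y ij.1 ij.2) → (l : ℤ) ∣ R)) with hE4
  set E5 := (wbox wt N).filter (fun z =>
      (∃ (p : ℕ) (_ : Fact p.Prime) (K : ℕ), 5 ≤ p ∧
        (p : ℝ) ≤ (M : ℝ) ^ (1 / (4 * ((r : ℝ) + 1))) ∧ M ≤ p ^ K ∧
        GoodInfN p (v p) K a b X Y W z) ∧
      (∀ i j, i ≤ j → ∀ D : ℤ, D ∣ 2 * eval z (Y i j) →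
        D ∣ 3 * eval z (X i j) ^ 2 + eval z a * eval z (W i j) ^ 4 → D ∣ R) ∧
      (∀ l : ℕ, l.Prime → (l : ℤ) ∣ R →
        ¬ (l : ℤ) ^ h ∣ 4 * (4 * eval z a ^ 3 + 27 * eval z b ^ 2))) with hE5
  have hsub : E ⊆ ((E1 ∪ E2) ∪ (E3 ∪ E4)) ∪ E5 := by
    intro z hz
    obtain ⟨hbox, p, hp, K, h5, hpM, hK, hnear⟩ := hE z hz
    rw [Finset.mem_union, Finset.mem_union, Finset.mem_union, Finset.mem_union]
    by_cases c1 : eval z Z = 0
    · exact Or.inl (Or.inl (Or.inl (Finset.mem_filter.mpr ⟨hbox, c1⟩)))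
    by_cases c2 : z ∈ E2
    · exact Or.inl (Or.inl (Or.inr c2))
    by_cases c3 : ∃ l : ℕ, l.Prime ∧ l ≤ L ∧ (l : ℤ) ^ h ∣ eval z F
    · exact Or.inl (Or.inr (Or.inl (Finset.mem_filter.mpr ⟨hbox, c3⟩)))
    push Not at c3
    have hFz : eval z F ≠ 0 := by
      intro h0
      apply c3 2 Nat.prime_two hL2
      rw [h0]; exact dvd_zero _
    have hYF : ∀ i j, i ≤ j → (2 * eval z (Y i j)) ∣ eval z F := by
      intro i j hij
      rw [hF, map_mul, map_prod]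
      refine Dvd.dvd.mul_left ?_ _
      have := Finset.dvd_prod_of_mem (fun ij : Fin r × Fin r => eval z (2 * Y ij.1 ij.2)) (hmp hij)
      simpa only [map_mul, map_ofNat] using this
    have hYz : ∀ i j, i ≤ j → 2 * eval z (Y i j) ≠ 0 := by
      intro i j hij h0
      apply hFz
      have := hYF i j hij
      rw [h0] at this
      exact zero_dvd_iff.mp this
    have hZz : ∀ i j, i ≤ j → eval z (W i j) ≠ 0 ∧ (i < j → eval z (H i j) ≠ 0) := by
      intro i j hij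
      rw [hZ, map_prod] at c1
      have h1 := Finset.prod_ne_zero_iff.mp c1 (i, j) (hmp hij)
      rw [map_mul] at h1
      refine ⟨left_ne_zero_of_mul h1, fun hlt => ?_⟩
      have h2 := right_ne_zero_of_mul h1
      simp only at h2
      rw [if_pos hlt] at h2
      exact h2
    have hcommon : ∀ i j, i ≤ j → ∀ D : ℤ, D ∣ 2 * eval z (Y i j) →
        D ∣ 3 * eval z (X i j) ^ 2 + eval z a * eval z (W i j) ^ 4 → D ∣ R := by
      intro i j hij D h1 h2
      have hD0 : D ≠ 0 := by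
        rintro rfl
        exact hYz i j hij (zero_dvd_iff.mp h1)
      apply dvd_smallProd hD0
      intro l hl hlD
      have hlL : l ≤ L := by
        by_contra hlt
        push Not at hlt
        apply c2
        rw [hE2, Finset.mem_biUnion]
        refine ⟨(i, j), hmp hij, mem_bad.mpr ⟨hbox, l, hl, hlt, ?_, ?_⟩⟩
        · simpa only [map_mul, map_ofNat] using hlD.trans h1
        · simpa only [map_add, map_mul, map_pow, map_ofNat] using hlD.trans h2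
      exact ⟨hlL, fun hd => c3 l hl hlL ((hd.trans h1).trans (hYF i j hij))⟩
    have hdisc : ∀ l : ℕ, l.Prime → (l : ℤ) ∣ R →
        ¬ (l : ℤ) ^ h ∣ 4 * (4 * eval z a ^ 3 + 27 * eval z b ^ 2) := by
      intro l hl hlR hd
      apply c3 l hl (le_of_dvd_smallProd hl hlR)
      rw [hF, map_mul]
      refine Dvd.dvd.mul_right ?_ _
      simpa only [map_mul, map_add, map_pow, map_ofNat] using hd
    rcases member_cases hEq (fun i j hij => hH i j hij z ((hZz i j hij.le).2 hij)) hnear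
      (fun i j hij => (hZz i j hij).1) with ⟨i, j, hij, P, hP, htor⟩ | hg
    · left; right; right
      rw [hE4, Finset.mem_biUnion]
      refine ⟨(i, j), hmp hij, Finset.mem_filter.mpr ⟨hbox, fun l hl hlY => ?_⟩⟩
      have hlf : Fact l.Prime := ⟨hl⟩
      by_contra hlR
      refine torsion_unit (l := l) hP htor (right_ne_zero_of_mul (hYz i j hij)) ?_ hlY
      rintro ⟨g1, g2⟩
      exact hlR (hcommon i j hij _ g1 g2)
    · right
      rw [hE5]
      exact Finset.mem_filter.mpr ⟨hbox, ⟨p, hp, K, h5, hpM, hK, hg⟩, hcommon, hdisc⟩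
  have b1 : (E1.card : ℝ) ≤ δ * (N : ℝ) ^ (∑ i, wt i) := hzero N hNN₃
  have b2 : (E2.card : ℝ) ≤ 2 * δ * (N : ℝ) ^ (∑ i, wt i) := by
    have h1 := hEke L N (by omega) (hN₁1.trans hNN₁)
    refine h1.trans ?_
    have h2 : CE * (N : ℝ) ^ (∑ i, wt i) * (1 / L + 1 / N) =
      (CE / L + CE / N) * (N : ℝ) ^ (∑ i, wt i) := by ring
    rw [h2]
    apply mul_le_mul_of_nonneg_right _ (by positivity)
    have := hN₁ N hNN₁
    linarith
  have b3 : (E3.card : ℝ) ≤ δ * (N : ℝ) ^ (∑ i, wt i) := hlev N hNN₂ E3 fun z hz => by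
    rw [hE3, Finset.mem_filter] at hz
    exact hz
  have b4 : (E4.card : ℝ) ≤ δ * (N : ℝ) ^ (∑ i, wt i) := htors N hNN₄
  have b5 : (E5.card : ℝ) ≤ δ * (N : ℝ) ^ (∑ i, wt i) := hgood M N hMM₁ hMN v E5 fun z hz => by
    rw [hE5, Finset.mem_filter] at hz
    exact hz
  have hcard : (E.card : ℝ) ≤ (E1.card : ℝ) + E2.card + (E3.card + E4.card) + E5.card := by
    have h1 := Finset.card_le_card hsub
    have h2 := Finset.card_union_le ((E1 ∪ E2) ∪ (E3 ∪ E4)) E5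
    have h3 := Finset.card_union_le (E1 ∪ E2) (E3 ∪ E4)
    have h4 := Finset.card_union_le E1 E2
    have h6 := Finset.card_union_le E3 E4
    have h7 : E.card ≤ E1.card + E2.card + (E3.card + E4.card) + E5.card := by omega
    exact_mod_cast h7
  calc (E.card : ℝ) ≤ _ := hcard
    _ ≤ 6 * δ * (N : ℝ) ^ (∑ i, wt i) := by linarith
    _ = ε * (N : ℝ) ^ (∑ i, wt i) := by rw [hδ]; ring

end Pool.Agent.Lib.MP_3550b5_nt.B
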