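import Mathlib
import Pool.Agent.Lib.MP_3550b5_nt.B.Narrow1
import Pool.Agent.Lib.MP_3550b5_nt.G.FinalD

/-!
Weighted families: the final theorem.
-/

namespace Pool.Agent.Lib.MP_3550b5_nt

open MvPolynomial G B

/-- `MemberNear` for the multiples. -/
lemma MemberNear.nsmul {n : ℕ} {p : ℕ} [Fact p.Prime] {r : ℕ} {v : ℚ_[p]} {K : ℕ}
    {a b : MvPolynomial (Fin n) ℤ} {X Y W X' Y' W' : Fin r → MvPolynomial (Fin n) ℤ}
    {z : Fin n → ℤ} {m : ℕ} (hW' : ∀ i, eval z (W' i) ≠ 0)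
    (hns : ∀ i, (curve (eval z a) (eval z b)).Nonsingular
      (((eval z (X' i) : ℤ) : ℚ) / ((eval z (W' i) : ℤ) : ℚ) ^ 2)
      (((eval z (Y' i) : ℤ) : ℚ) / ((eval z (W' i) : ℤ) : ℚ) ^ 3))
    (hmul : ∀ i, ∀ (k1 : (curve (eval z a) (eval z b)).Nonsingular
      (((eval z (X i) : ℤ) : ℚ) / ((eval z (W i) : ℤ) : ℚ) ^ 2)
      (((eval z (Y i) : ℤ) : ℚ) / ((eval z (W i) : ℤ) : ℚ) ^ 3)),
      m • (.some _ _ k1 : (curve (eval z a) (eval z b)).Point) = .some _ _ (hns i))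
    (h : MemberNear p v K a b X Y W z) :
    MemberNear p ((m : ℚ_[p]) ^ (2 * r) * v) K a b X' Y' W' z := by
  obtain ⟨hgo, B, Q, hB, hcase⟩ := h
  refine ⟨hgo, B, ?_⟩
  rcases hcase with ⟨hval, hreg⟩ | ⟨hv, hMW, hreg⟩
  · refine ⟨fun i => m • Q i, hB, Or.inl ⟨fun i => ?_, ?_⟩⟩
    · obtain ⟨-, hh, he⟩ := hval i
      refine ⟨hW' i, hns i, ?_⟩
      simp only
      rw [he]
      exact hmul i hh
    · rw [regulator_nsmul hB, ← mul_sub, norm_mul]
      have h1 : ‖(m : ℚ_[p]) ^ (2 * r)‖ ≤ 1 := by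
        rw [norm_pow]
        apply pow_le_one₀ (norm_nonneg _)
        exact_mod_cast Padic.norm_int_le_one (m : ℤ)
      calc _ ≤ 1 * ‖regulator B Q - v‖ := by gcongr
        _ ≤ _ := by rw [one_mul]; exact hreg
  · exact ⟨Q, hB, Or.inr ⟨by rw [hv, mul_zero], hMW, hreg⟩⟩

/-- Small balls for the regulators of the members of a weighted family, at all small primes, for
arbitrary independent points over the field of rational functions. -/
theorem members_all {n : ℕ} {wt : Fin n → ℕ} (hwt : ∀ i, 1 ≤ wt i) {r : ℕ} (hr : 1 ≤ r) {d : ℕ}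
    (hd : 1 ≤ d) {a b : MvPolynomial (Fin n) ℤ} (ha : a.IsWeightedHomogeneous wt (4 * d))
    (hb : b.IsWeightedHomogeneous wt (6 * d)) (hΔ : 4 * a ^ 3 + 27 * b ^ 2 ≠ 0)
    (hmin : ∀ F : MvPolynomial (Fin n) ℚ, F ^ 4 ∣ a.map (Int.castRingHom ℚ) →
      F ^ 6 ∣ b.map (Int.castRingHom ℚ) → IsUnit F)
    [DecidableEq (FractionRing (MvPolynomial (Fin n) ℤ))]
    (P : Fin r → (familyCurve a b).Point) (hP : LinearIndependent ℤ P)
    {e : Fin r → ℕ} {X Y W : Fin r → MvPolynomial (Fin n) ℤ}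
    (hS : ∀ i, IsMarkedPoint wt d a b (e i) (X i) (Y i) (W i) (P i)) {ε : ℝ} (hε : 0 < ε) :
    ∃ M₀ : ℕ, ∀ M N : ℕ, M₀ ≤ M → M ≤ N → ∀ v : (p : ℕ) → [Fact p.Prime] → ℚ_[p],
      ((Set.ncard {z : Fin n → ℤ | (∀ i, |z i| ≤ (N : ℤ) ^ wt i) ∧
        ∃ (p : ℕ) (_ : Fact p.Prime) (K : ℕ), 5 ≤ p ∧
          (p : ℝ) ≤ (M : ℝ) ^ (1 / (4 * ((r : ℝ) + 1))) ∧ M ≤ p ^ K ∧
          MemberNear p (v p) K a b X Y W z} : ℕ) : ℝ) ≤ ε * (N : ℝ) ^ (∑ i, wt i) := by
  classical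
  have hind : ∀ v : Fin r → ℤ, ∑ i, v i • P i = 0 → v = 0 := by
    intro v hv
    funext i
    exact (Fintype.linearIndependent_iff.mp hP) v hv i
  have hP' : ∀ i, ∃ (e : ℕ) (X Y W : MvPolynomial (Fin n) ℤ),
      IRep (n := n) wt d (α := algebraMap _ _ a) (β := algebraMap _ _ b) e X Y W (P i) := by
    intro i
    exact ⟨e i, X i, Y i, W i, (hS i).homX, (hS i).homY, (hS i).homW, (hS i).W_ne, (hS i).point⟩
  obtain ⟨m, hm, w, X', Y', W', hrep, hdet⟩ := exists_narrow (n := n) hd ha hΔ hmin P hind hP'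
  have hprep : ∀ i j, i ≤ j → PRep (n := n) (X' i j) (Y' i j) (W' i j)
      (if i = j then m • P i else m • P i - m • P j) := fun i j hij =>
    ⟨(hrep i j hij).1.W_ne, (hrep i j hij).1.point⟩
  have hprep' : ∀ i, PRep (n := n) (X' i i) (Y' i i) (W' i i) (m • P i) := by
    intro i
    have := hprep i i le_rfl
    rwa [if_pos rfl] at this
  have hEq : ∀ i j, i ≤ j → Y' i j ^ 2 = X' i j ^ 3 + a * X' i j * W' i j ^ 4 +
      b * W' i j ^ 6 := fun i j hij => (hprep i j hij).eqn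
  -- nonzero multiples
  have hne : ∀ i (k : ℕ), 1 ≤ k → k • P i ≠ 0 := by
    intro i k hk h0
    have h1 := hind (Pi.single i (k : ℤ)) (by
      rw [Finset.sum_eq_single i]
      · rw [Pi.single_eq_same, natCast_zsmul, h0]
      · intro j _ hj
        rw [Pi.single_eq_of_ne hj]; exact zero_zsmul _
      · intro h; exact absurd (Finset.mem_univ i) h)
    have h2 := congrFun h1 i
    rw [Pi.single_eq_same] at h2
    simp only [Pi.zero_apply] at h2
    omega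
  have hne2 : ∀ i j, i ≤ j → (2 : ℕ) • (if i = j then m • P i else m • P i - m • P j) ≠ 0 := by
    intro i j hij h0
    split_ifs at h0 with h
    · rw [← mul_smul] at h0
      exact hne i (2 * m) (by omega) h0
    · have h1 := hind (fun k => (if k = i then ((2 * m : ℕ) : ℤ) else 0) -
        (if k = j then ((2 * m : ℕ) : ℤ) else 0)) (by
        simp only [sub_smul, ite_smul, zero_smul, Finset.sum_sub_distrib, Finset.sum_ite_eq',
          Finset.mem_univ, if_true]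
        rw [natCast_zsmul, natCast_zsmul, mul_smul, mul_smul]
        rw [← h0]
        exact (nsmul_sub (m • P i) (m • P j) 2).symm)
      have h2 := congrFun h1 i
      simp only [if_true, if_neg h, sub_zero, Pi.zero_apply] at h2
      have h3 : (2 * m : ℕ) = 0 := by exact_mod_cast h2
      omega
  have hY0 : ∀ i j, i ≤ j → Y' i j ≠ 0 := by
    intro i j hij h0
    apply hne2 i j hij
    obtain ⟨-, hh, e1⟩ := hprep i j hij
    have e2 := congrArg (fun Q => (2 : ℕ) • Q) e1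
    refine e2.trans ?_
    rw [two_nsmul]
    exact dbl_eq_zero hh (by rw [h0, map_zero, zero_div, mul_zero])
  have hcop : ∀ i j, i ≤ j → Cop (2 * Y' i j) (3 * X' i j ^ 2 + a * W' i j ^ 4) :=
    fun i j hij => const_of_common (hrep i j hij).2
  have hsub : ∀ i j, ∃ H : MvPolynomial (Fin n) ℤ, H ≠ 0 ∧ (i < j → ∀ z : Fin n → ℤ,
      eval z H ≠ 0 →
      ∀ (k1 : (curve (eval z a) (eval z b)).Nonsingular
          (((eval z (X' i i) : ℤ) : ℚ) / ((eval z (W' i i) : ℤ) : ℚ) ^ 2)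
          (((eval z (Y' i i) : ℤ) : ℚ) / ((eval z (W' i i) : ℤ) : ℚ) ^ 3))
        (k2 : (curve (eval z a) (eval z b)).Nonsingular
          (((eval z (X' j j) : ℤ) : ℚ) / ((eval z (W' j j) : ℤ) : ℚ) ^ 2)
          (((eval z (Y' j j) : ℤ) : ℚ) / ((eval z (W' j j) : ℤ) : ℚ) ^ 3))
        (k3 : (curve (eval z a) (eval z b)).Nonsingular
          (((eval z (X' i j) : ℤ) : ℚ) / ((eval z (W' i j) : ℤ) : ℚ) ^ 2)
          (((eval z (Y' i j) : ℤ) : ℚ) / ((eval z (W' i j) : ℤ) : ℚ) ^ 3)),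
        (.some _ _ k1 : (curve (eval z a) (eval z b)).Point) - .some _ _ k2 = .some _ _ k3) := by
    intro i j
    by_cases hij : i < j
    · have h3 := hprep i j hij.le
      rw [if_neg hij.ne] at h3
      obtain ⟨H, hH, hH2⟩ := spec_sub (n := n) (hprep' i) (hprep' j) h3
      exact ⟨H, hH, fun _ => hH2⟩
    · exact ⟨1, one_ne_zero, fun h => absurd h hij⟩
  choose H hH0 hH using hsub
  have hmul : ∀ i, ∃ H : MvPolynomial (Fin n) ℤ, H ≠ 0 ∧ ∀ z : Fin n → ℤ, eval z H ≠ 0 →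
      ∀ (k1 : (curve (eval z a) (eval z b)).Nonsingular
          (((eval z (X i) : ℤ) : ℚ) / ((eval z (W i) : ℤ) : ℚ) ^ 2)
          (((eval z (Y i) : ℤ) : ℚ) / ((eval z (W i) : ℤ) : ℚ) ^ 3))
        (k2 : (curve (eval z a) (eval z b)).Nonsingular
          (((eval z (X' i i) : ℤ) : ℚ) / ((eval z (W' i i) : ℤ) : ℚ) ^ 2)
          (((eval z (Y' i i) : ℤ) : ℚ) / ((eval z (W' i i) : ℤ) : ℚ) ^ 3)),
        m • (.some _ _ k1 : (curve (eval z a) (eval z b)).Point) = .some _ _ k2 := by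
    intro i
    exact spec_nsmul (n := n) hΔ (P := P i) ⟨(hS i).W_ne, (hS i).point⟩ m hm
      (fun k hk _ => hne i k hk) _ _ _ (hprep' i)
  choose H' hH'0 hH' using hmul
  set Z : MvPolynomial (Fin n) ℤ := (4 * a ^ 3 + 27 * b ^ 2) * ∏ i, (H' i * W' i i) with hZ
  have hZ0 : Z ≠ 0 := by
    rw [hZ]
    refine mul_ne_zero hΔ (Finset.prod_ne_zero_iff.mpr fun i _ => ?_)
    exact mul_ne_zero (hH'0 i) (hprep' i).1
  have hZf : ∀ z : Fin n → ℤ, eval z Z ≠ 0 → eval z (4 * a ^ 3 + 27 * b ^ 2) ≠ 0 ∧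
      ∀ i, eval z (H' i) ≠ 0 ∧ eval z (W' i i) ≠ 0 := by
    intro z hz
    rw [hZ, map_mul, map_prod] at hz
    refine ⟨left_ne_zero_of_mul hz, fun i => ?_⟩
    have h1 := Finset.prod_ne_zero_iff.mp (right_ne_zero_of_mul hz) i (Finset.mem_univ i)
    rw [map_mul] at h1
    exact ⟨left_ne_zero_of_mul h1, right_ne_zero_of_mul h1⟩
  obtain ⟨M₁, hM₁, hcount⟩ := members_narrow hwt hr hd ha hb hΔ
    (fun i j hij => (hrep i j hij).1.homX) (fun i j hij => (hrep i j hij).1.homY)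
    (fun i j hij => (hrep i j hij).1.homW) hY0 (fun i j hij => (hrep i j hij).1.W_ne) hEq hcop
    hdet (H := H) (fun i j _ => hH0 i j) (fun i j hij => hH i j hij) (ε := ε / 2) (by linarith)
  obtain ⟨N₁, hzero⟩ := Negl.zeros hwt hZ0 (ε / 2) (by linarith)
  refine ⟨max M₁ N₁, fun M N hM hMN v => ?_⟩
  set v' : (p : ℕ) → [Fact p.Prime] → ℚ_[p] := fun p _ => (m : ℚ_[p]) ^ (2 * r) * v p with hv'
  set S := {z : Fin n → ℤ | (∀ i, |z i| ≤ (N : ℤ) ^ wt i) ∧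
        ∃ (p : ℕ) (_ : Fact p.Prime) (K : ℕ), 5 ≤ p ∧
          (p : ℝ) ≤ (M : ℝ) ^ (1 / (4 * ((r : ℝ) + 1))) ∧ M ≤ p ^ K ∧
          MemberNear p (v p) K a b X Y W z} with hSdef
  set E1 := (wbox wt N).filter (fun z => eval z Z = 0) with hE1
  set E2 := (wbox wt N).filter (fun z => ∃ (p : ℕ) (_ : Fact p.Prime) (K : ℕ), 5 ≤ p ∧
          (p : ℝ) ≤ (M : ℝ) ^ (1 / (4 * ((r : ℝ) + 1))) ∧ M ≤ p ^ K ∧
          MemberNear p (v' p) K a b (fun i => X' i i) (fun i => Y' i i) (fun i => W' i i) z)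
    with hE2
  have hsub : S ⊆ (↑(E1 ∪ E2) : Set (Fin n → ℤ)) := by
    rintro z ⟨hz, p, hp, K, h5, hpM, hK, hnear⟩
    have hbox : z ∈ wbox wt N := by
      rw [mem_wbox]
      intro i
      push_cast
      exact hz i
    rw [Finset.mem_coe, Finset.mem_union]
    by_cases c1 : eval z Z = 0
    · exact Or.inl (Finset.mem_filter.mpr ⟨hbox, c1⟩)
    right
    obtain ⟨hd0, hrest⟩ := hZf z c1
    have hns : ∀ i, (curve (eval z a) (eval z b)).Nonsingular
        (((eval z (X' i i) : ℤ) : ℚ) / ((eval z (W' i i) : ℤ) : ℚ) ^ 2)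
        (((eval z (Y' i i) : ℤ) : ℚ) / ((eval z (W' i i) : ℤ) : ℚ) ^ 3) :=
      fun i => PRep.nonsing (n := n) (hprep' i) (hrest i).2 hd0
    refine Finset.mem_filter.mpr ⟨hbox, p, hp, K, h5, hpM, hK, ?_⟩
    exact hnear.nsmul (fun i => (hrest i).2) hns (fun i k1 => hH' i z (hrest i).1 k1 (hns i))
  have c0 : (S.ncard : ℝ) ≤ (E1.card : ℝ) + E2.card := by
    have h1 := Set.ncard_le_ncard hsub (Finset.finite_toSet _)
    rw [Set.ncard_coe_finset] at h1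
    exact_mod_cast h1.trans (Finset.card_union_le _ _)
  have c1 : (E1.card : ℝ) ≤ ε / 2 * (N : ℝ) ^ (∑ i, wt i) :=
    hzero N (((le_max_right _ _).trans hM).trans hMN)
  have c2 : (E2.card : ℝ) ≤ ε / 2 * (N : ℝ) ^ (∑ i, wt i) :=
    hcount M N ((le_max_left _ _).trans hM) hMN v' E2 fun z hz => by
      rw [hE2, Finset.mem_filter] at hz
      exact hz
  calc (S.ncard : ℝ) ≤ (E1.card : ℝ) + E2.card := c0
    _ ≤ ε / 2 * (N : ℝ) ^ (∑ i, wt i) + ε / 2 * (N : ℝ) ^ (∑ i, wt i) := add_le_add c1 c2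
    _ = _ := by ring

end Pool.Agent.Lib.MP_3550b5_nt
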